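import Mathlib

set_option autoImplicit false

namespace Pool.Agent.H176R2

open Set

section
variable {E : Type*} [NormedAddCommGroup E] [NormedSpace ℝ E] [FiniteDimensional ℝ E]

/-- `A` is the set of points of `V` on a face of the convex hull of `V`. -/
def IsF (V : Finset E) (A : Finset E) : Prop :=
  ∃ φ : E →ᵃ[ℝ] ℝ, (∀ v ∈ V, φ v ≤ 0) ∧ ∀ v, v ∈ A ↔ v ∈ V ∧ φ v = 0

/-- the dimension of the affine span of `A`. -/
noncomputable def dm (A : Finset E) : ℕ := Module.finrank ℝ (vectorSpan ℝ (A : Set E))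

omit [FiniteDimensional ℝ E] in
lemma IsF.subset {V A : Finset E} (h : IsF V A) : A ⊆ V := by
  obtain ⟨φ, _, h2⟩ := h
  exact fun v hv => ((h2 v).1 hv).1

omit [FiniteDimensional ℝ E] in
lemma vanish_span {A : Set E} {g : E →ᵃ[ℝ] ℝ} (h : ∀ a ∈ A, g a = 0) {y : E}
    (hy : y ∈ affineSpan ℝ A) : g y = 0 := by
  have h1 : Set.EqOn g (AffineMap.const ℝ E (0:ℝ)) A := fun a ha => by simpa using h a ha
  simpa using AffineMap.eqOn_affineSpan h1 hy

omit [FiniteDimensional ℝ E] in
lemma exists_affine (A : Set E) {p : E} (hp : p ∈ A) {x : E} (hx : x ∉ affineSpan ℝ A) :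
    ∃ g : E →ᵃ[ℝ] ℝ, (∀ a ∈ A, g a = 0) ∧ g x = 1 := by
  have hx' : x - p ∉ vectorSpan ℝ A := by
    intro h
    apply hx
    have hp' : p ∈ affineSpan ℝ A := subset_affineSpan ℝ A hp
    have := AffineSubspace.vadd_mem_of_mem_direction (s := affineSpan ℝ A) (v := x - p)
      (by rw [direction_affineSpan]; exact h) hp'
    simpa using this
  obtain ⟨f, hf, hker⟩ := Submodule.exists_le_ker_of_notMem hx'
  refine ⟨(f (x - p))⁻¹ • (f.toAffineMap - AffineMap.const ℝ E (f p)), ?_, ?_⟩
  · intro a ha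
    have : a - p ∈ vectorSpan ℝ A := vsub_mem_vectorSpan ℝ ha hp
    have h0 : f (a - p) = 0 := by simpa using hker this
    have h1 : f a - f p = 0 := by simpa [map_sub] using h0
    simp [h1]
  · have : f x - f p = f (x - p) := by simp [map_sub]
    simp only [AffineMap.coe_smul, AffineMap.coe_sub, Pi.smul_apply, Pi.sub_apply,
      LinearMap.coe_toAffineMap, AffineMap.const_apply, smul_eq_mul, this]
    exact inv_mul_cancel₀ hf

omit [FiniteDimensional ℝ E] in
lemma affine_sum (φ : E →ᵃ[ℝ] ℝ) (s : Finset E) (w : E → ℝ) (hw : ∑ v ∈ s, w v = 1) :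
    φ (∑ v ∈ s, w v • v) = ∑ v ∈ s, w v * φ v := by
  have hdec : ∀ x, φ x = φ.linear x + φ 0 := by
    intro x
    have := congrFun φ.decomp x
    simpa using this
  rw [hdec, map_sum]
  have : ∀ v ∈ s, w v * φ v = φ.linear (w v • v) + w v * φ 0 := by
    intro v _
    rw [hdec v, map_smul, smul_eq_mul]; ring
  rw [Finset.sum_congr rfl this, Finset.sum_add_distrib, ← Finset.sum_mul, hw, one_mul]

omit [FiniteDimensional ℝ E] in
lemma le_hull {V : Finset E} {φ : E →ᵃ[ℝ] ℝ} (h : ∀ v ∈ V, φ v ≤ 0) {x : E}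
    (hx : x ∈ convexHull ℝ (V : Set E)) : φ x ≤ 0 := by
  rw [Finset.mem_convexHull'] at hx
  obtain ⟨w, hw0, hw1, rfl⟩ := hx
  rw [affine_sum φ V w hw1]
  exact Finset.sum_nonpos fun v hv => mul_nonpos_of_nonneg_of_nonpos (hw0 v hv) (h v hv)

omit [FiniteDimensional ℝ E] in
lemma mem_hull_face {V A : Finset E} {φ : E →ᵃ[ℝ] ℝ} (h : ∀ v ∈ V, φ v ≤ 0)
    (h2 : ∀ v, v ∈ A ↔ v ∈ V ∧ φ v = 0) {x : E}
    (hx : x ∈ convexHull ℝ (V : Set E)) (h0 : φ x = 0) : x ∈ convexHull ℝ (A : Set E) := by
  classical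
  rw [Finset.mem_convexHull'] at hx
  obtain ⟨w, hw0, hw1, rfl⟩ := hx
  rw [affine_sum φ V w hw1] at h0
  have hz : ∀ v ∈ V, w v * φ v = 0 :=
    (Finset.sum_eq_zero_iff_of_nonpos
      fun v hv => mul_nonpos_of_nonneg_of_nonpos (hw0 v hv) (h v hv)).1 h0
  have hAV : A ⊆ V := fun v hv => ((h2 v).1 hv).1
  have hout : ∀ v ∈ V, v ∉ A → w v = 0 := by
    intro v hv hvA
    rcases mul_eq_zero.1 (hz v hv) with h | h
    · exact h
    · exact absurd ((h2 v).2 ⟨hv, h⟩) hvA
  rw [Finset.mem_convexHull']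
  refine ⟨w, fun v hv => hw0 v (hAV hv), ?_, ?_⟩
  · rw [← hw1]; exact Finset.sum_subset hAV hout
  · exact Finset.sum_subset hAV fun v hv hvA => by rw [hout v hv hvA, zero_smul]

omit [FiniteDimensional ℝ E] in
/-- the hull of the points of a face is an extreme set. -/
lemma IsF.isExtreme {V A : Finset E} (h : IsF V A) :
    IsExtreme ℝ (convexHull ℝ (V : Set E)) (convexHull ℝ (A : Set E)) := by
  obtain ⟨φ, h1, h2⟩ := h
  have hAV : A ⊆ V := fun v hv => ((h2 v).1 hv).1
  refine ⟨convexHull_mono (by exact_mod_cast hAV), ?_⟩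
  intro x hx y hy z hz hxyz
  obtain ⟨a, b, ha, hb, hab, rfl⟩ := hxyz
  have hz0 : φ (a • x + b • y) = 0 := by
    apply vanish_span (A := (A : Set E)) (fun v hv => ((h2 v).1 hv).2)
    exact convexHull_subset_affineSpan _ hz
  have hcomb : φ (a • x + b • y) = a * φ x + b * φ y := by
    have := Convex.combo_affine_apply (f := φ) (x := x) (y := y) hab
    simpa using this
  have hx0 := le_hull h1 hx
  have hy0 := le_hull h1 hy
  have : φ x = 0 := by nlinarith
  exact mem_hull_face h1 h2 hx this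

omit [FiniteDimensional ℝ E] in
lemma IsF.mem_of_mem_span {V A : Finset E} (h : IsF V A) {v : E} (hv : v ∈ V)
    (hs : v ∈ affineSpan ℝ (A : Set E)) : v ∈ A := by
  obtain ⟨φ, h1, h2⟩ := h
  exact (h2 v).2 ⟨hv, vanish_span (fun a ha => ((h2 a).1 ha).2) hs⟩

omit [FiniteDimensional ℝ E] in
lemma support_mem (V : Finset E) {F : Set E} (hF : IsExtreme ℝ (convexHull ℝ (V : Set E)) F)
    {w : E → ℝ} (hw0 : ∀ v ∈ V, 0 ≤ w v) (hw1 : ∑ v ∈ V, w v = 1)
    (hy : ∑ v ∈ V, w v • v ∈ F) : ∀ v ∈ V, 0 < w v → v ∈ F := by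
  classical
  intro v hv hwv
  have hsplit1 : w v + ∑ u ∈ V.erase v, w u = 1 := by rw [Finset.add_sum_erase _ _ hv, hw1]
  have hsplit2 : w v • v + ∑ u ∈ V.erase v, w u • u = ∑ u ∈ V, w u • u :=
    Finset.add_sum_erase V (fun u => w u • u) hv
  have hnn : 0 ≤ ∑ u ∈ V.erase v, w u :=
    Finset.sum_nonneg fun u hu => hw0 u (Finset.mem_of_mem_erase hu)
  rcases hnn.lt_or_eq with hs | hs
  · set s := ∑ u ∈ V.erase v, w u with hsdef
    have hz : ∑ u ∈ V.erase v, (w u / s) • u ∈ convexHull ℝ (V : Set E) := by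
      have : ∑ u ∈ V.erase v, (w u / s) • u ∈ convexHull ℝ ((V.erase v : Finset E) : Set E) := by
        rw [Finset.mem_convexHull']
        refine ⟨fun u => w u / s, fun u hu =>
          div_nonneg (hw0 u (Finset.mem_of_mem_erase hu)) hs.le, ?_, rfl⟩
        rw [← Finset.sum_div, ← hsdef, div_self hs.ne']
      exact convexHull_mono (by simp) this
    refine hF.left_mem_of_mem_openSegment (subset_convexHull ℝ _ hv) hz hy ?_
    refine ⟨w v, s, hwv, hs, hsplit1, ?_⟩
    rw [Finset.smul_sum, ← hsplit2]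
    congr 1
    apply Finset.sum_congr rfl
    intro u _
    rw [smul_smul, mul_div_cancel₀ _ hs.ne']
  · have hall : ∀ u ∈ V.erase v, w u = 0 :=
      (Finset.sum_eq_zero_iff_of_nonneg fun u hu => hw0 u (Finset.mem_of_mem_erase hu)).1 hs.symm
    have hwv1 : w v = 1 := by linarith
    have : ∑ u ∈ V, w u • u = v := by
      rw [← hsplit2, hwv1, one_smul, Finset.sum_eq_zero, add_zero]
      intro u hu; rw [hall u hu, zero_smul]
    rwa [this] at hy

omit [FiniteDimensional ℝ E] in
open Classical in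
/-- an extreme convex subset of a polytope is the hull of the points it contains. -/
lemma extreme_eq_hull (V : Finset E) {F : Set E} (hconv : Convex ℝ F)
    (hF : IsExtreme ℝ (convexHull ℝ (V : Set E)) F) :
    F = convexHull ℝ ((V.filter (· ∈ F) : Finset E) : Set E) := by
  apply Set.Subset.antisymm
  · intro y hy
    have hyV := hF.subset hy
    rw [Finset.mem_convexHull'] at hyV
    obtain ⟨w, hw0, hw1, rfl⟩ := hyV
    have hs := support_mem V hF hw0 hw1 hy
    have hout : ∀ v ∈ V, v ∉ V.filter (· ∈ F) → w v = 0 := by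
      intro v hv hvF
      by_contra hne
      exact hvF (Finset.mem_filter.2 ⟨hv, hs v hv (lt_of_le_of_ne (hw0 v hv) (Ne.symm hne))⟩)
    rw [Finset.mem_convexHull']
    refine ⟨w, fun v hv => hw0 v (Finset.mem_of_mem_filter v hv), ?_, ?_⟩
    · rw [← hw1]; exact Finset.sum_subset (Finset.filter_subset _ _) hout
    · exact Finset.sum_subset (Finset.filter_subset _ _)
        fun v hv hvA => by rw [hout v hv hvA, zero_smul]
  · apply convexHull_min _ hconv
    intro v hv
    simpa using (Finset.mem_filter.1 hv).2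

open Classical in
/-- an extreme convex subset of a polytope is exposed. -/
theorem extreme_isF (V : Finset E) {F : Set E} (hne : F.Nonempty) (hconv : Convex ℝ F)
    (hF : IsExtreme ℝ (convexHull ℝ (V : Set E)) F) : IsF V (V.filter (· ∈ F)) := by
  have hFA' : F = convexHull ℝ ((V.filter (· ∈ F) : Finset E) : Set E) :=
    extreme_eq_hull V hconv hF
  obtain ⟨A, hA⟩ : ∃ A, A = V.filter (· ∈ F) := ⟨_, rfl⟩
  obtain ⟨W, hW⟩ : ∃ W, W = V.filter (· ∉ F) := ⟨_, rfl⟩
  have hAm : ∀ x, x ∈ A ↔ x ∈ V ∧ x ∈ F := by intro x; rw [hA, Finset.mem_filter]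
  have hWm : ∀ x, x ∈ W ↔ x ∈ V ∧ x ∉ F := by intro x; rw [hW, Finset.mem_filter]
  rw [← hA]
  have hFA : F = convexHull ℝ (A : Set E) := by rw [hA]; exact hFA'
  clear hFA'
  have hAne : A.Nonempty := by
    have : (convexHull ℝ (A : Set E)).Nonempty := hFA ▸ hne
    rw [convexHull_nonempty_iff] at this
    exact_mod_cast this
  -- the centroid
  obtain ⟨n, hn⟩ : ∃ n : ℝ, n = (A.card : ℝ) := ⟨_, rfl⟩
  have hnpos : 0 < n := by rw [hn]; exact_mod_cast hAne.card_pos
  obtain ⟨q, hq⟩ : ∃ q : E, q = ∑ a ∈ A, (1 / n) • a := ⟨_, rfl⟩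
  have hqF : q ∈ F := by
    rw [hFA, Finset.mem_convexHull']
    refine ⟨fun _ => 1 / n, fun _ _ => by positivity, ?_, hq.symm⟩
    rw [Finset.sum_const, nsmul_eq_mul, ← hn]; field_simp
  have hdisj : Disjoint (convexHull ℝ (W : Set E)) (affineSpan ℝ (A : Set E) : Set E) := by
    rw [Set.disjoint_left]
    intro x hxW hxA
    -- weights
    have hxA' : x ∈ affineSpan ℝ (Set.range ((↑) : A → E)) := by
      simpa using hxA
    obtain ⟨c, hc1, hcx⟩ := eq_affineCombination_of_mem_affineSpan_of_fintype hxA'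
    rw [Finset.affineCombination_eq_linear_combination _ _ _ hc1] at hcx
    -- choose t
    obtain ⟨t, ht0, ht⟩ : ∃ t : ℝ, 0 < t ∧ ∀ a : A, 0 ≤ (1 + t) / n - t * c a := by
      set M := ∑ a : A, |c a| with hM
      have hM0 : 0 ≤ M := Finset.sum_nonneg fun _ _ => abs_nonneg _
      refine ⟨1 / (n * (M + 1)), by positivity, fun a => ?_⟩
      have h1 : c a ≤ M := (le_abs_self _).trans
        (Finset.single_le_sum (f := fun a : A => |c a|) (fun _ _ => abs_nonneg _)
          (Finset.mem_univ a))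
      have h2 : 1 / (n * (M + 1)) * c a ≤ 1 / n := by
        rw [div_mul_eq_mul_div, one_mul, div_le_div_iff₀ (by positivity) hnpos]
        nlinarith
      have h3 : 0 ≤ 1 / (n * (M + 1)) := by positivity
      have h4 : 1 / n ≤ (1 + 1 / (n * (M + 1))) / n := by
        apply div_le_div_of_nonneg_right _ hnpos.le
        linarith
      linarith
    set z : E := (1 + t) • q - t • x with hz
    have hzF : z ∈ F := by
      rw [hFA]
      have hzs : z = ∑ a : A, ((1 + t) / n - t * c a) • (a : E) := by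
        rw [hz, hq, hcx, Finset.smul_sum, Finset.smul_sum, ← Finset.sum_coe_sort A,
          ← Finset.sum_sub_distrib]
        apply Finset.sum_congr rfl
        intro a _
        rw [smul_smul, smul_smul, sub_smul]; congr 2; ring
      rw [hzs]
      apply Convex.sum_mem (convex_convexHull ℝ _) (fun a _ => ht a) _
        (fun a _ => subset_convexHull ℝ _ a.2)
      rw [Finset.sum_sub_distrib, ← Finset.mul_sum, hc1, Finset.sum_const, nsmul_eq_mul,
        Finset.card_univ, Fintype.card_coe, ← hn]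
      field_simp; ring
    have hqseg : q ∈ openSegment ℝ x z := by
      refine ⟨t / (1 + t), 1 / (1 + t), by positivity, by positivity, by field_simp; ring, ?_⟩
      rw [hz, smul_sub, smul_smul, smul_smul]
      rw [show 1 / (1 + t) * (1 + t) = 1 by field_simp, one_smul,
        show 1 / (1 + t) * t = t / (1 + t) by ring]
      abel
    have hxV : x ∈ convexHull ℝ (V : Set E) :=
      convexHull_mono (fun v hv => ((hWm v).1 hv).1) hxW
    have hxF : x ∈ F :=
      hF.left_mem_of_mem_openSegment hxV (hF.subset hzF) hqF hqseg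
    -- but then some point of W lies in F
    rw [Finset.mem_convexHull'] at hxW
    obtain ⟨w, hw0, hw1, hwx⟩ := hxW
    have hWV : W ⊆ V := fun v hv => ((hWm v).1 hv).1
    let w' : E → ℝ := fun v => if v ∈ W then w v else 0
    have hw'0 : ∀ v ∈ V, 0 ≤ w' v := by
      intro v _
      by_cases h : v ∈ W
      · simp only [w', h, if_true]; exact hw0 v h
      · simp [w', h]
    have hw'1 : ∑ v ∈ V, w' v = 1 := by
      rw [← hw1, ← Finset.sum_subset hWV (f := w')]
      · exact Finset.sum_congr rfl fun v hv => by simp [w', hv]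
      · intro v _ hv; simp [w', hv]
    have hw'x : ∑ v ∈ V, w' v • v = x := by
      rw [← hwx, ← Finset.sum_subset hWV (f := fun v => w' v • v)]
      · exact Finset.sum_congr rfl fun v hv => by simp [w', hv]
      · intro v _ hv; simp [w', hv]
    have hsup := support_mem V hF hw'0 hw'1 (by rw [hw'x]; exact hxF)
    obtain ⟨v, hvW, hvpos⟩ : ∃ v ∈ W, 0 < w v := by
      by_contra hcon
      push Not at hcon
      have : ∑ v ∈ W, w v ≤ 0 := Finset.sum_nonpos hcon
      linarith
    have := hsup v (hWV hvW) (by simp only [w', hvW, if_true]; exact hvpos)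
    exact ((hWm v).1 hvW).2 this
  have hcompact : IsCompact (convexHull ℝ (W : Set E)) := W.finite_toSet.isCompact_convexHull ℝ
  have hclosed : IsClosed (affineSpan ℝ (A : Set E) : Set E) :=
    AffineSubspace.closed_of_finiteDimensional _
  obtain ⟨f, u, v, hfu, huv, hfv⟩ := geometric_hahn_banach_compact_closed
    (convex_convexHull ℝ _) hcompact (AffineSubspace.convex _) hclosed hdisj
  have hqA : q ∈ affineSpan ℝ (A : Set E) := by
    apply convexHull_subset_affineSpan; rw [← hFA]; exact hqF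
  have hconst : ∀ y ∈ affineSpan ℝ (A : Set E), f y = f q := by
    intro y hy
    by_contra hne'
    have hd : f y - f q ≠ 0 := sub_ne_zero.2 hne'
    have hmem := AffineMap.lineMap_mem (Q := affineSpan ℝ (A : Set E))
      ((v - f q) / (f y - f q)) hqA hy
    have := hfv _ hmem
    rw [AffineMap.lineMap_apply] at this
    simp only [vsub_eq_sub, vadd_eq_add, map_add, map_smul, map_sub, smul_eq_mul] at this
    rw [div_mul_cancel₀ _ hd] at this
    linarith
  refine ⟨f.toLinearMap.toAffineMap - AffineMap.const ℝ E (f q), ?_, ?_⟩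
  · intro x hx
    by_cases hxF : x ∈ F
    · have : x ∈ A := (hAm x).2 ⟨hx, hxF⟩
      have := hconst x (subset_affineSpan ℝ _ this)
      simp [this]
    · have : x ∈ W := (hWm x).2 ⟨hx, hxF⟩
      have h1 := hfu x (subset_convexHull ℝ _ this)
      have h2 := hfv q hqA
      simp; linarith
  · intro x
    constructor
    · intro hx
      refine ⟨((hAm x).1 hx).1, ?_⟩
      have := hconst x (subset_affineSpan ℝ _ hx)
      simp [this]
    · rintro ⟨hxV, hx0⟩
      by_contra hxA
      have hxF : x ∉ F := fun h => hxA ((hAm x).2 ⟨hxV, h⟩)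
      have : x ∈ W := (hWm x).2 ⟨hxV, hxF⟩
      have h1 := hfu x (subset_convexHull ℝ _ this)
      have h2 := hfv q hqA
      simp at hx0; linarith

end

end Pool.Agent.H176R2
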