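import Pool.Agent.H176R2.Faces

set_option autoImplicit false

namespace Pool.Agent.H176R2

open Set

section
variable {E : Type*} [NormedAddCommGroup E] [NormedSpace ℝ E] [FiniteDimensional ℝ E]

lemma dm_mono {A B : Finset E} (h : A ⊆ B) : dm A ≤ dm B :=
  Submodule.finrank_mono (vectorSpan_mono ℝ (by exact_mod_cast h))

lemma finrank_le_of_subset_span {A B : Set E} (h : A ⊆ affineSpan ℝ B) :
    Module.finrank ℝ (vectorSpan ℝ A) ≤ Module.finrank ℝ (vectorSpan ℝ B) := by
  rw [← direction_affineSpan ℝ A, ← direction_affineSpan ℝ B]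
  exact Submodule.finrank_mono (AffineSubspace.direction_le (affineSpan_le.2 h))

omit [FiniteDimensional ℝ E] in
lemma vectorSpan_insert_eq (A : Set E) {p : E} (hp : p ∈ A) (x : E) :
    vectorSpan ℝ (insert x A) = vectorSpan ℝ A ⊔ Submodule.span ℝ {x - p} := by
  apply le_antisymm
  · rw [vectorSpan_def, Submodule.span_le]
    have key : ∀ a ∈ insert x A, a - p ∈ vectorSpan ℝ A ⊔ Submodule.span ℝ {x - p} := by
      intro a ha
      rcases ha with rfl | ha
      · exact Submodule.mem_sup_right (Submodule.mem_span_singleton_self _)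
      · exact Submodule.mem_sup_left (vsub_mem_vectorSpan ℝ ha hp)
    rintro y ⟨a, ha, b, hb, rfl⟩
    have := Submodule.sub_mem _ (key a ha) (key b hb)
    simpa using this
  · apply sup_le
    · exact vectorSpan_mono ℝ (Set.subset_insert _ _)
    · rw [Submodule.span_le, Set.singleton_subset_iff]
      exact vsub_mem_vectorSpan ℝ (Set.mem_insert _ _) (Set.mem_insert_of_mem _ hp)

lemma finrank_insert_le (A : Set E) {p : E} (hp : p ∈ A) (x : E) :
    Module.finrank ℝ (vectorSpan ℝ (insert x A)) ≤ Module.finrank ℝ (vectorSpan ℝ A) + 1 := by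
  rw [vectorSpan_insert_eq A hp]
  refine (Submodule.finrank_add_le_finrank_add_finrank _ _).trans ?_
  have h1 : Module.finrank ℝ (Submodule.span ℝ {x - p}) ≤ 1 := by
    have := finrank_span_le_card (R := ℝ) ({x - p} : Set E)
    simpa using this
  omega

lemma finrank_insert_eq (A : Set E) {p : E} (hp : p ∈ A) {x : E} (hx : x ∉ affineSpan ℝ A) :
    Module.finrank ℝ (vectorSpan ℝ (insert x A)) = Module.finrank ℝ (vectorSpan ℝ A) + 1 := by
  have hx' : x - p ∉ vectorSpan ℝ A := by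
    intro h
    apply hx
    have hp' : p ∈ affineSpan ℝ A := subset_affineSpan ℝ A hp
    have := AffineSubspace.vadd_mem_of_mem_direction (s := affineSpan ℝ A) (v := x - p)
      (by rw [direction_affineSpan]; exact h) hp'
    simpa using this
  have h0 : x - p ≠ 0 := by rintro h; rw [h] at hx'; exact hx' (Submodule.zero_mem _)
  rw [vectorSpan_insert_eq A hp]
  have hd : Disjoint (vectorSpan ℝ A) (Submodule.span ℝ {x - p}) :=
    (Submodule.disjoint_span_singleton' h0).2 hx'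
  have := Submodule.finrank_sup_add_finrank_inf_eq (vectorSpan ℝ A) (Submodule.span ℝ {x - p})
  rw [hd.eq_bot, finrank_bot, finrank_span_singleton h0] at this
  omega

open Classical in
lemma dm_insert_le {A : Finset E} (hA : A.Nonempty) (x : E) : dm (insert x A) ≤ dm A + 1 := by
  obtain ⟨p, hp⟩ := hA
  have := finrank_insert_le (A : Set E) (p := p) (by exact_mod_cast hp) x
  unfold dm; rw [Finset.coe_insert]; exact this

open Classical in
lemma dm_insert_eq {A : Finset E} (hA : A.Nonempty) {x : E}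
    (hx : x ∉ affineSpan ℝ (A : Set E)) : dm (insert x A) = dm A + 1 := by
  obtain ⟨p, hp⟩ := hA
  have := finrank_insert_eq (A : Set E) (p := p) (by exact_mod_cast hp) hx
  unfold dm; rw [Finset.coe_insert]; exact this

open Classical in
lemma dm_lt {V M F : Finset E} (hF : IsF V F) (hMV : M ⊆ V) (hFM : F ⊆ M) (hne : F.Nonempty)
    {x : E} (hxM : x ∈ M) (hxF : x ∉ F) : dm F + 1 ≤ dm M := by
  have hx : x ∉ affineSpan ℝ (F : Set E) := fun h => hxF (hF.mem_of_mem_span (hMV hxM) h)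
  rw [← dm_insert_eq hne hx]
  exact dm_mono (Finset.insert_subset hxM hFM)

omit [NormedAddCommGroup E] [NormedSpace ℝ E] [FiniteDimensional ℝ E] in
lemma big (W : Finset E) (a b : E → ℝ) (hb : ∀ w ∈ W, b w < 0) :
    ∃ s : ℝ, 0 ≤ s ∧ ∀ w ∈ W, a w + s * b w < 0 := by
  have hpos : ∀ w ∈ W, 0 ≤ (|a w| + 1) / (-b w) := fun w hw =>
    div_nonneg (by positivity) (by linarith [hb w hw])
  refine ⟨∑ w ∈ W, (|a w| + 1) / (-b w), Finset.sum_nonneg hpos, fun w hw => ?_⟩
  have h1 : (|a w| + 1) / (-b w) ≤ ∑ w ∈ W, (|a w| + 1) / (-b w) :=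
    Finset.single_le_sum hpos hw
  have hbw := hb w hw
  have h2 : (∑ w ∈ W, (|a w| + 1) / (-b w)) * b w ≤ (|a w| + 1) / (-b w) * b w :=
    mul_le_mul_of_nonpos_right h1 hbw.le
  have h3 : (|a w| + 1) / (-b w) * b w = -(|a w| + 1) := by
    field_simp [hbw.ne]
  have h4 := le_abs_self (a w)
  linarith

open Classical in
/-- Enlarging a face inside a face `M`, still avoiding a point `x`. -/
lemma step {V M F : Finset E} (hM : IsF V M) (hF : IsF V F) (hFM : F ⊆ M) (hne : F.Nonempty)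
    {x : E} (hxM : x ∈ M) (hxF : x ∉ F) (hd : dm F + 2 ≤ dm M) :
    ∃ F1, IsF V F1 ∧ F ⊂ F1 ∧ F1 ⊆ M ∧ x ∉ F1 := by
  have h1 : ∃ v ∈ M, v ∉ affineSpan ℝ ((insert x F : Finset E) : Set E) := by
    by_contra hcon
    push Not at hcon
    have h2 : dm M ≤ dm (insert x F) :=
      finrank_le_of_subset_span (A := (M : Set E)) (B := ((insert x F : Finset E) : Set E))
        (fun v hv => hcon v hv)
    have h3 := dm_insert_le hne x
    omega
  obtain ⟨v, hvM, hv⟩ := h1
  obtain ⟨g, hg0, hgv⟩ := exists_affine ((insert x F : Finset E) : Set E) (p := x)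
    (by simp) hv
  obtain ⟨φ, hφ1, hφ2⟩ := hF
  have hMV := hM.subset
  obtain ⟨μ, hμ1, hμ2⟩ := hM
  have hgF : ∀ a ∈ F, g a = 0 := fun a ha => hg0 a (by simp [ha])
  have hgx : g x = 0 := hg0 x (by simp)
  have hSne : (M.filter (fun u => 0 < g u)).Nonempty :=
    ⟨v, Finset.mem_filter.2 ⟨hvM, by rw [hgv]; exact one_pos⟩⟩
  obtain ⟨u0, hu0, hmin⟩ := Finset.exists_min_image _ (fun u => (-φ u) / g u) hSne
  rw [Finset.mem_filter] at hu0
  obtain ⟨hu0M, hgu0⟩ := hu0
  have hu0F : u0 ∉ F := fun h => by rw [hgF u0 h] at hgu0; exact lt_irrefl _ hgu0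
  have hneg : ∀ w ∈ M, w ∉ F → φ w < 0 := fun w hw hwF =>
    lt_of_le_of_ne (hφ1 w (hMV hw)) fun h => hwF ((hφ2 w).2 ⟨hMV hw, h⟩)
  have hφu0 := hneg u0 hu0M hu0F
  obtain ⟨t, ht⟩ : ∃ t, t = (-φ u0) / g u0 := ⟨_, rfl⟩
  have htpos : 0 < t := by rw [ht]; exact div_pos (by linarith) hgu0
  have hψM : ∀ w ∈ M, φ w + t * g w ≤ 0 := by
    intro w hw
    rcases le_or_gt (g w) 0 with hg | hg
    · have := hφ1 w (hMV hw)
      nlinarith
    · have := hmin w (Finset.mem_filter.2 ⟨hw, hg⟩)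
      rw [← ht, le_div_iff₀ hg] at this
      linarith
  have hψu0 : φ u0 + t * g u0 = 0 := by rw [ht, div_mul_cancel₀ _ hgu0.ne']; ring
  obtain ⟨s, hs0, hs⟩ := big (V \ M) (fun w => φ w + t * g w) (fun w => μ w) (by
    intro w hw
    rw [Finset.mem_sdiff] at hw
    exact lt_of_le_of_ne (hμ1 w hw.1) fun h => hw.2 ((hμ2 w).2 ⟨hw.1, h⟩))
  have hμM : ∀ w ∈ M, μ w = 0 := fun w hw => ((hμ2 w).1 hw).2
  refine ⟨M.filter (fun w => φ w + t * g w = 0), ⟨φ + t • g + s • μ, ?_, ?_⟩, ?_,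
    Finset.filter_subset _ _, ?_⟩
  · intro w hw
    simp only [AffineMap.coe_add, AffineMap.coe_smul, Pi.add_apply, Pi.smul_apply, smul_eq_mul]
    by_cases hwM : w ∈ M
    · rw [hμM w hwM]; linarith [hψM w hwM]
    · exact (hs w (Finset.mem_sdiff.2 ⟨hw, hwM⟩)).le
  · intro w
    simp only [AffineMap.coe_add, AffineMap.coe_smul, Pi.add_apply, Pi.smul_apply, smul_eq_mul,
      Finset.mem_filter]
    constructor
    · rintro ⟨hwM, h⟩
      exact ⟨hMV hwM, by rw [hμM w hwM]; linarith⟩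
    · rintro ⟨hwV, h⟩
      have hwM : w ∈ M := by
        by_contra hwM
        exact (hs w (Finset.mem_sdiff.2 ⟨hwV, hwM⟩)).ne h
      exact ⟨hwM, by rw [hμM w hwM] at h; linarith⟩
  · rw [Finset.ssubset_iff_of_subset]
    · exact ⟨u0, Finset.mem_filter.2 ⟨hu0M, hψu0⟩, hu0F⟩
    · intro w hw
      refine Finset.mem_filter.2 ⟨hFM hw, ?_⟩
      rw [hgF w hw, ((hφ2 w).1 hw).2]; ring
  · intro h
    have h2 := (Finset.mem_filter.1 h).2
    rw [hgx] at h2
    have := hneg x hxM hxF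
    linarith

open Classical in
/-- For a face `F` of a face `M` and a vertex `x ∈ M \ F` there is a facet of `M` containing `F`
and avoiding `x`. -/
lemma facet_avoid {V M : Finset E} (hM : IsF V M) {x : E} (hxM : x ∈ M) :
    ∀ n : ℕ, ∀ F : Finset E, (M \ F).card ≤ n → IsF V F → F ⊆ M → F.Nonempty → x ∉ F →
    ∃ F', IsF V F' ∧ F ⊆ F' ∧ F' ⊆ M ∧ x ∉ F' ∧ dm F' + 1 = dm M := by
  intro n
  induction n with
  | zero =>
    intro F hc hF hFM hne hxF
    exfalso
    have : M \ F = ∅ := by simpa using hc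
    have hx : x ∈ M \ F := Finset.mem_sdiff.2 ⟨hxM, hxF⟩
    rw [this] at hx; simp at hx
  | succ n ih =>
    intro F hc hF hFM hne hxF
    have hlt := dm_lt hF hM.subset hFM hne hxM hxF
    rcases Nat.lt_or_ge (dm F + 1) (dm M) with h | h
    · obtain ⟨F1, h1, h2, h3, h4⟩ := step hM hF hFM hne hxM hxF h
      have hcard : (M \ F1).card ≤ n := by
        have : (M \ F1).card < (M \ F).card := by
          apply Finset.card_lt_card
          obtain ⟨u, hu1, hu2⟩ := (Finset.ssubset_iff_of_subset h2.subset).1 h2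
          refine (Finset.ssubset_iff_of_subset (Finset.sdiff_subset_sdiff (Finset.Subset.refl _)
            h2.subset)).2 ⟨u, Finset.mem_sdiff.2 ⟨h3 hu1, hu2⟩, fun h => ?_⟩
          exact (Finset.mem_sdiff.1 h).2 hu1
        omega
      obtain ⟨F', g1, g2, g3, g4, g5⟩ := ih F1 hcard h1 h3 (hne.mono h2.subset) h4
      exact ⟨F', g1, h2.subset.trans g2, g3, g4, g5⟩
    · exact ⟨F, hF, Finset.Subset.refl _, hFM, hxF, by omega⟩

/-- Between two faces there are faces of all intermediate dimensions. -/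
lemma chain {V F : Finset E} (hF : IsF V F) (hne : F.Nonempty) {j : ℕ} (hj : dm F ≤ j) :
    ∀ n : ℕ, ∀ G : Finset E, dm G ≤ j + n → IsF V G → F ⊆ G → j ≤ dm G →
    ∃ F', IsF V F' ∧ F ⊆ F' ∧ F' ⊆ G ∧ dm F' = j := by
  classical
  intro n
  induction n with
  | zero =>
    intro G hc hG hFG hjG
    exact ⟨G, hG, hFG, Finset.Subset.refl _, by omega⟩
  | succ n ih =>
    intro G hc hG hFG hjG
    rcases hjG.lt_or_eq with h | h
    · have hne' : ∃ x ∈ G, x ∉ F := by
        by_contra hcon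
        push Not at hcon
        have : dm G ≤ dm F := dm_mono (fun x hx => hcon x hx)
        omega
      obtain ⟨x, hxG, hxF⟩ := hne'
      obtain ⟨F1, g1, g2, g3, g4, g5⟩ := facet_avoid hG hxG _ F le_rfl hF hFG hne hxF
      obtain ⟨F', k1, k2, k3, k4⟩ := ih F1 (by omega) g1 g2 (by omega)
      exact ⟨F', k1, k2, k3.trans g3, k4⟩
    · exact ⟨G, hG, hFG, Finset.Subset.refl _, h.symm⟩

end

end Pool.Agent.H176R2
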