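import Pool.Agent.H176R2.Faces2

set_option autoImplicit false

namespace Pool.Agent.H176R2

open Set

section
variable {E : Type*} [NormedAddCommGroup E] [NormedSpace ℝ E] [FiniteDimensional ℝ E]

omit [FiniteDimensional ℝ E] in
lemma not_isF_of_inter {V A B : Finset E} (hB : B ⊆ V) (hdisj : Disjoint A B)
    (h : (convexHull ℝ (A : Set E) ∩ convexHull ℝ (B : Set E)).Nonempty) : ¬ IsF V A := by
  rintro ⟨φ, h1, h2⟩
  obtain ⟨x, hxA, hxB⟩ := h
  have h0 : φ x = 0 :=
    vanish_span (fun a ha => ((h2 a).1 ha).2) (convexHull_subset_affineSpan _ hxA)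
  have := mem_hull_face (V := B) (A := ∅) (φ := φ) (fun v hv => h1 v (hB hv)) (by
    intro v
    simp only [Finset.notMem_empty, false_iff, not_and]
    intro hvB hv0
    exact (Finset.disjoint_left.1 hdisj) ((h2 v).2 ⟨hB hvB, hv0⟩) hvB) hxB h0
  simp at this

open Classical in
lemma exists_nonface {V G : Finset E} (hG : G ⊆ V) {n : ℕ} (hdim : dm G ≤ n)
    (hcard : n + 2 ≤ G.card) :
    ∃ A ⊆ G, A.Nonempty ∧ A.card ≤ (n + 2) / 2 ∧ ¬ IsF V A := by
  obtain ⟨G', hG'G, hG'c⟩ := Finset.exists_subset_card_eq hcard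
  have hna : ¬ AffineIndependent ℝ ((↑) : G' → E) := by
    rw [← finrank_vectorSpan_le_iff_not_affineIndependent ℝ ((↑) : G' → E) (n := n) (by simpa)]
    have h1 : dm G' ≤ dm G := dm_mono hG'G
    have h2 : Set.range ((↑) : G' → E) = (G' : Set E) := by simp
    rw [h2]
    exact h1.trans hdim
  obtain ⟨I, hI⟩ := Convex.radon_partition hna
  obtain ⟨A1, hA1⟩ : ∃ A1 : Finset E, A1 = G'.filter (fun x => ∃ h : x ∈ G', (⟨x, h⟩ : G') ∈ I) :=
    ⟨_, rfl⟩
  obtain ⟨A2, hA2⟩ : ∃ A2 : Finset E,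
    A2 = G'.filter (fun x => ¬ ∃ h : x ∈ G', (⟨x, h⟩ : G') ∈ I) := ⟨_, rfl⟩
  have e1 : ((↑) : G' → E) '' I = (A1 : Set E) := by
    ext x
    simp [hA1]
  have e2 : ((↑) : G' → E) '' Iᶜ = (A2 : Set E) := by
    ext x
    simp only [Set.mem_image, Set.mem_compl_iff, Subtype.exists, exists_and_right, exists_eq_right,
      hA2, Finset.coe_filter, Set.mem_ofPred_eq, not_exists]
    constructor
    · rintro ⟨h, h'⟩
      exact ⟨h, fun _ => h'⟩
    · rintro ⟨h, h'⟩
      exact ⟨h, h' h⟩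
  rw [e1, e2] at hI
  have hsum : A1.card + A2.card = n + 2 := by
    rw [← hG'c, hA1, hA2]
    exact Finset.card_filter_add_card_filter_not _
  have hdisj : Disjoint A1 A2 := by
    rw [hA1, hA2]; exact Finset.disjoint_filter_filter_not _ _ _
  have h1G : A1 ⊆ G := by rw [hA1]; exact (Finset.filter_subset _ _).trans hG'G
  have h2G : A2 ⊆ G := by rw [hA2]; exact (Finset.filter_subset _ _).trans hG'G
  have hne1 : A1.Nonempty := by
    have : (convexHull ℝ (A1 : Set E)).Nonempty := hI.mono Set.inter_subset_left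
    rw [convexHull_nonempty_iff] at this
    exact_mod_cast this
  have hne2 : A2.Nonempty := by
    have : (convexHull ℝ (A2 : Set E)).Nonempty := hI.mono Set.inter_subset_right
    rw [convexHull_nonempty_iff] at this
    exact_mod_cast this
  rcases Nat.le_total A1.card A2.card with h | h
  · exact ⟨A1, h1G, hne1, by omega, not_isF_of_inter (h2G.trans hG) hdisj hI⟩
  · exact ⟨A2, h2G, hne2, by omega,
      not_isF_of_inter (h1G.trans hG) hdisj.symm (by rwa [Set.inter_comm])⟩

omit [FiniteDimensional ℝ E] in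
lemma affine_ray (φ : E →ᵃ[ℝ] ℝ) (x p : E) (ε : ℝ) :
    φ (x + ε • (x - p)) = φ x + ε * (φ x - φ p) := by
  have h1 : φ (x + ε • (x - p)) = φ.linear (ε • (x - p)) + φ x := by
    have := φ.map_vadd x (ε • (x - p))
    simp only [vadd_eq_add] at this
    rw [add_comm x]; exact this
  have h2 : φ.linear (x - p) = φ x - φ p := by
    have := φ.linearMap_vsub x p
    simpa using this
  rw [h1, map_smul, h2, smul_eq_mul]; ring

open Classical in
/-- Pulling a vertex. -/
theorem exists_pull {V : Finset E} (hV : ∀ v ∈ V, IsF V {v}) {x : E} (hx : x ∈ V)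
    (hcard : 2 ≤ V.card) :
    ∃ x', x' ∉ V ∧
      convexHull ℝ (V : Set E) ⊆
        convexHull ℝ ((insert x' (V.erase x) : Finset E) : Set E) ∧
      IsF (insert x' (V.erase x)) {x'} ∧
      (∀ M, IsF V M → x ∉ M → IsF (insert x' (V.erase x)) M) ∧
      (∀ F H, IsF V F → x ∉ F → IsF V H → H ≠ V → x ∈ H → F ⊆ H → F.Nonempty →
        IsF (insert x' (V.erase x)) (insert x' F) ∧ dm (insert x' F) = dm F + 1) := by
  -- the centroid
  obtain ⟨n, hn⟩ : ∃ n : ℝ, n = (V.card : ℝ) := ⟨_, rfl⟩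
  have hn2 : (2 : ℝ) ≤ n := by rw [hn]; exact_mod_cast hcard
  have hnpos : 0 < n := by linarith
  obtain ⟨p, hp⟩ : ∃ p : E, p = ∑ v ∈ V, (1 / n) • v := ⟨_, rfl⟩
  have hw1 : ∑ v ∈ V, (fun _ : E => 1 / n) v = 1 := by
    rw [Finset.sum_const, nsmul_eq_mul, ← hn]; field_simp
  have hneg : ∀ φ : E →ᵃ[ℝ] ℝ, (∀ v ∈ V, φ v ≤ 0) → (∃ v ∈ V, φ v < 0) → φ p < 0 := by
    intro φ h1 ⟨v, hv, hv0⟩
    have h2 := affine_sum φ V (fun _ => 1 / n) hw1
    rw [hp, h2]
    exact Finset.sum_neg' (fun u hu => mul_nonpos_of_nonneg_of_nonpos (by positivity) (h1 u hu))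
      ⟨v, hv, mul_neg_of_pos_of_neg (by positivity) hv0⟩
  -- the choice of ε
  obtain ⟨Φ, hΦ⟩ : ∃ Φ : Finset E → (E →ᵃ[ℝ] ℝ), ∀ M, IsF V M →
      (∀ v ∈ V, Φ M v ≤ 0) ∧ ∀ v, v ∈ M ↔ v ∈ V ∧ Φ M v = 0 := by
    refine ⟨fun M => if h : IsF V M then h.choose else 0, fun M hM => ?_⟩
    simp only [hM, dif_pos]
    exact hM.choose_spec
  have hev : ∀ᶠ ε : ℝ in nhdsWithin 0 (Set.Ioi 0), ∀ M ∈ V.powerset,
      IsF V M → x ∉ M → Φ M (x + ε • (x - p)) < 0 := by
    rw [Filter.eventually_all_finset]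
    intro M _
    by_cases hM : IsF V M
    · by_cases hxM : x ∈ M
      · exact Filter.Eventually.of_forall fun _ _ h => absurd hxM h
      · obtain ⟨h1, h2⟩ := hΦ M hM
        have hx0 : Φ M x < 0 := lt_of_le_of_ne (h1 x hx) fun h => hxM ((h2 x).2 ⟨hx, h⟩)
        have hcont : Filter.Tendsto (fun ε : ℝ => Φ M x + ε * (Φ M x - Φ M p)) (nhds 0)
            (nhds (Φ M x)) := by
          have : Continuous (fun ε : ℝ => Φ M x + ε * (Φ M x - Φ M p)) := by fun_prop
          simpa using this.tendsto 0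
        have := (hcont.eventually (gt_mem_nhds hx0)).filter_mono
          (nhdsWithin_le_nhds (s := Set.Ioi 0))
        filter_upwards [this] with ε hε _ _
        rw [affine_ray]; exact hε
    · exact Filter.Eventually.of_forall fun _ h => absurd h hM
  obtain ⟨ε, hε, hε0⟩ := (hev.and self_mem_nhdsWithin).exists
  have hεpos : (0 : ℝ) < ε := hε0
  obtain ⟨x', hx'⟩ : ∃ x' : E, x' = x + ε • (x - p) := ⟨_, rfl⟩
  have hbeyond : ∀ φ : E →ᵃ[ℝ] ℝ, (∀ v ∈ V, φ v ≤ 0) → (∃ v ∈ V, φ v < 0) → φ x = 0 →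
      0 < φ x' := by
    intro φ h1 h2 h3
    have := hneg φ h1 h2
    rw [hx', affine_ray, h3]
    nlinarith
  -- the functional of the vertex x
  have hxx : IsF V {x} := hV x hx
  obtain ⟨y, hyV, hyx⟩ : ∃ y ∈ V, y ≠ x := Finset.exists_mem_ne (by omega) x
  obtain ⟨h1, h2⟩ := hΦ _ hxx
  have hy0 : Φ {x} y < 0 := lt_of_le_of_ne (h1 y hyV) fun h =>
    hyx (by simpa using (h2 y).2 ⟨hyV, h⟩)
  have hx0 : Φ {x} x = 0 := ((h2 x).1 (by simp)).2
  have hx'pos := hbeyond _ h1 ⟨y, hyV, hy0⟩ hx0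
  have hx'V : x' ∉ V := fun h => by linarith [h1 x' h]
  refine ⟨x', hx'V, ?_, ?_, ?_, ?_⟩
  · -- hull inclusion
    have hxmem : x ∈ convexHull ℝ ((insert x' (V.erase x) : Finset E) : Set E) := by
      rw [Finset.mem_convexHull']
      obtain ⟨D, hD⟩ : ∃ D : ℝ, D = 1 + ε * ((n - 1) / n) := ⟨_, rfl⟩
      have hD0 : 0 < D := by
        rw [hD]
        have : 0 ≤ (n - 1) / n := div_nonneg (by linarith) hnpos.le
        positivity
      have hx'e : x' ∉ V.erase x := fun h => hx'V (Finset.mem_of_mem_erase h)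
      have hne : ∀ v ∈ V.erase x, v ≠ x' := fun v hv h => hx'e (h ▸ hv)
      refine ⟨fun v => if v = x' then 1 / D else (ε / n) / D, ?_, ?_, ?_⟩
      · intro v _
        dsimp only
        split_ifs <;> positivity
      · rw [Finset.sum_insert hx'e, if_pos rfl, Finset.sum_congr rfl
          (fun v hv => if_neg (hne v hv)), Finset.sum_const, Finset.card_erase_of_mem hx,
          nsmul_eq_mul, Nat.cast_sub (by omega), ← hn]
        rw [← mul_div_assoc, ← add_div, div_eq_one_iff_eq hD0.ne', hD]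
        push_cast; ring
      · rw [Finset.sum_insert hx'e]
        beta_reduce
        rw [if_pos rfl, Finset.sum_congr rfl (fun v hv => by rw [if_neg (hne v hv)])]
        have hsum : ∑ v ∈ V.erase x, (1 / n) • v = p - (1 / n) • x := by
          rw [hp, ← Finset.add_sum_erase V (fun v => (1 / n) • v) hx]; abel
        have hsum2 : ∑ v ∈ V.erase x, (ε / n / D) • v = (ε / D) • (p - (1 / n) • x) := by
          rw [← hsum, Finset.smul_sum]
          apply Finset.sum_congr rfl
          intro v _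
          rw [smul_smul]; congr 1; ring
        rw [hsum2, hx']
        have : (1 / D) • (x + ε • (x - p)) + (ε / D) • (p - (1 / n) • x)
            = (1 / D * (1 + ε) - ε / D * (1 / n)) • x := by
          module
        rw [this]
        have hD' : D = 1 + ε - ε / n := by rw [hD]; field_simp; ring
        have : 1 / D * (1 + ε) - ε / D * (1 / n) = (1 + ε - ε / n) / D := by ring
        rw [this, ← hD', div_self hD0.ne', one_smul]
    apply convexHull_min _ (convex_convexHull ℝ _)
    intro v hv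
    by_cases hvx : v = x
    · rw [hvx]; exact hxmem
    · apply subset_convexHull
      exact Finset.mem_coe.2 (Finset.mem_insert_of_mem (Finset.mem_erase.2 ⟨hvx, hv⟩))
  · -- the new vertex
    refine ⟨Φ {x} - AffineMap.const ℝ E (Φ {x} x'), ?_, ?_⟩
    · intro v hv
      rcases Finset.mem_insert.1 hv with rfl | hv
      · simp
      · have := h1 v (Finset.mem_of_mem_erase hv)
        simp only [AffineMap.coe_sub, Pi.sub_apply, AffineMap.const_apply]; linarith
    · intro v
      simp only [Finset.mem_singleton, AffineMap.coe_sub, Pi.sub_apply, AffineMap.const_apply,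
        Finset.mem_insert]
      constructor
      · rintro rfl; simp
      · rintro ⟨hv | hv, h0⟩
        · exact hv
        · have := h1 v (Finset.mem_of_mem_erase hv); linarith
  · intro M hM hxM
    have hlt : Φ M x' < 0 := by
      rw [hx']; exact hε M (Finset.mem_powerset.2 hM.subset) hM hxM
    obtain ⟨g1, g2⟩ := hΦ M hM
    refine ⟨Φ M, ?_, ?_⟩
    · intro v hv
      rcases Finset.mem_insert.1 hv with rfl | hv
      · exact hlt.le
      · exact g1 v (Finset.mem_of_mem_erase hv)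
    · intro v
      rw [g2 v]
      constructor
      · rintro ⟨hv, h0⟩
        refine ⟨Finset.mem_insert_of_mem (Finset.mem_erase.2 ⟨?_, hv⟩), h0⟩
        rintro rfl
        exact hxM ((g2 v).2 ⟨hv, h0⟩)
      · rintro ⟨hv, h0⟩
        rcases Finset.mem_insert.1 hv with rfl | hv
        · exact absurd h0 hlt.ne
        · exact ⟨Finset.mem_of_mem_erase hv, h0⟩
  · intro F H hF hxF hH hHV hxH hFH hFne
    have hlt : Φ F x' < 0 := by
      rw [hx']; exact hε F (Finset.mem_powerset.2 hF.subset) hF hxF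
    obtain ⟨f1, f2⟩ := hΦ F hF
    obtain ⟨g1, g2⟩ := hΦ H hH
    obtain ⟨u, huV, huH⟩ : ∃ u ∈ V, u ∉ H := by
      by_contra hcon
      push Not at hcon
      exact hHV (Finset.Subset.antisymm hH.subset hcon)
    have hu0 : Φ H u < 0 := lt_of_le_of_ne (g1 u huV) fun h => huH ((g2 u).2 ⟨huV, h⟩)
    have hHx' : 0 < Φ H x' := hbeyond _ g1 ⟨u, huV, hu0⟩ ((g2 x).1 hxH).2
    have hx'F : x' ∉ affineSpan ℝ (F : Set E) := by
      intro h
      have : Φ H x' = 0 := vanish_span (fun a ha => ((g2 a).1 (hFH ha)).2) h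
      linarith
    refine ⟨?_, dm_insert_eq hFne hx'F⟩
    obtain ⟨c, hc⟩ : ∃ c : ℝ, c = -Φ F x' / Φ H x' := ⟨_, rfl⟩
    have hcpos : 0 < c := by rw [hc]; exact div_pos (by linarith) hHx'
    have hx'0 : Φ F x' + c * Φ H x' = 0 := by rw [hc, div_mul_cancel₀ _ hHx'.ne']; ring
    refine ⟨Φ F + c • Φ H, ?_, ?_⟩
    · intro v hv
      simp only [AffineMap.coe_add, AffineMap.coe_smul, Pi.add_apply, Pi.smul_apply, smul_eq_mul]
      rcases Finset.mem_insert.1 hv with rfl | hv
      · exact hx'0.le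
      · have a1 := f1 v (Finset.mem_of_mem_erase hv)
        have a2 := g1 v (Finset.mem_of_mem_erase hv)
        nlinarith
    · intro v
      simp only [AffineMap.coe_add, AffineMap.coe_smul, Pi.add_apply, Pi.smul_apply, smul_eq_mul,
        Finset.mem_insert]
      constructor
      · rintro (rfl | hv)
        · exact ⟨Or.inl rfl, hx'0⟩
        · have hvV := hF.subset hv
          refine ⟨Or.inr (Finset.mem_erase.2 ⟨?_, hvV⟩), ?_⟩
          · rintro rfl; exact hxF hv
          · rw [((f2 v).1 hv).2, ((g2 v).1 (hFH hv)).2]; ring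
      · rintro ⟨rfl | hv, h0⟩
        · exact Or.inl rfl
        · right
          have hvV := Finset.mem_of_mem_erase hv
          have a1 := f1 v hvV
          have a2 := g1 v hvV
          have : Φ F v = 0 := by nlinarith
          exact (f2 v).2 ⟨hvV, this⟩

end

end Pool.Agent.H176R2
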