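import Pool.Agent.H176R2.Klee

set_option autoImplicit false

namespace Pool.Agent.H176R2

open Set

section
variable {E : Type*} [NormedAddCommGroup E] [NormedSpace ℝ E] [FiniteDimensional ℝ E]

open Classical in
/-- the vertex sets of the `k`-dimensional faces. -/
noncomputable def KF (V : Finset E) (k : ℕ) : Finset (Finset E) :=
  V.powerset.filter (fun A => A.Nonempty ∧ IsF V A ∧ dm A = k)

omit [FiniteDimensional ℝ E] in
lemma mem_KF {V A : Finset E} {k : ℕ} : A ∈ KF V k ↔ A.Nonempty ∧ IsF V A ∧ dm A = k := by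
  classical
  unfold KF
  rw [Finset.mem_filter, Finset.mem_powerset]
  exact ⟨fun h => h.2, fun h => ⟨h.2.1.subset, h⟩⟩

omit [FiniteDimensional ℝ E] in
open Classical in
lemma isF_insert {V B F' : Finset E} {x : E} (hB : IsF V B) (hF' : IsF V F') (hBF : B ⊆ F')
    (hx : x ∈ V) (hxF : x ∉ F') (hI : IsF V (insert x F')) : IsF V (insert x B) := by
  have hF'V := hF'.subset
  obtain ⟨β, b1, b2⟩ := hB
  obtain ⟨φ, f1, f2⟩ := hF'
  obtain ⟨ψ, p1, p2⟩ := hI
  have hφx : φ x < 0 := lt_of_le_of_ne (f1 x hx) fun h => hxF ((f2 x).2 ⟨hx, h⟩)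
  obtain ⟨c, hc⟩ : ∃ c : ℝ, c = β x / φ x := ⟨_, rfl⟩
  have hgx : β x - c * φ x = 0 := by rw [hc, div_mul_cancel₀ _ hφx.ne]; ring
  obtain ⟨s, hs0, hs⟩ := big (V \ insert x F') (fun w => β w - c * φ w) (fun w => ψ w) (by
    intro w hw
    rw [Finset.mem_sdiff] at hw
    exact lt_of_le_of_ne (p1 w hw.1) fun h => hw.2 ((p2 w).2 ⟨hw.1, h⟩))
  have hin : ∀ w ∈ V, w ∈ insert x F' → β w - c * φ w + s * ψ w ≤ 0 ∧
      (β w - c * φ w + s * ψ w = 0 ↔ w ∈ insert x B) := by
    intro w hwV hw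
    rw [((p2 w).1 hw).2]
    rcases Finset.mem_insert.1 hw with rfl | hwF
    · rw [hgx]; simp
    · rw [((f2 w).1 hwF).2]
      refine ⟨by linarith [b1 w hwV], ?_⟩
      have hne : w ≠ x := fun h => hxF (h ▸ hwF)
      rw [Finset.mem_insert]
      simp only [hne, false_or]
      rw [b2 w]
      constructor
      · intro h; exact ⟨hwV, by linarith⟩
      · rintro ⟨_, h⟩; linarith
  refine ⟨β - c • φ + s • ψ, ?_, ?_⟩
  · intro w hw
    simp only [AffineMap.coe_add, AffineMap.coe_sub, AffineMap.coe_smul, Pi.add_apply,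
      Pi.sub_apply, Pi.smul_apply, smul_eq_mul]
    by_cases h : w ∈ insert x F'
    · exact (hin w hw h).1
    · exact (hs w (Finset.mem_sdiff.2 ⟨hw, h⟩)).le
  · intro w
    simp only [AffineMap.coe_add, AffineMap.coe_sub, AffineMap.coe_smul, Pi.add_apply,
      Pi.sub_apply, Pi.smul_apply, smul_eq_mul]
    constructor
    · intro hw
      have hwI : w ∈ insert x F' := by
        rcases Finset.mem_insert.1 hw with rfl | hw
        · exact Finset.mem_insert_self _ _
        · exact Finset.mem_insert_of_mem (hBF hw)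
      have hwV : w ∈ V := by
        rcases Finset.mem_insert.1 hwI with rfl | hw
        · exact hx
        · exact hF'V hw
      exact ⟨hwV, (hin w hwV hwI).2.2 hw⟩
    · rintro ⟨hwV, h0⟩
      have hwI : w ∈ insert x F' := by
        by_contra h
        exact (hs w (Finset.mem_sdiff.2 ⟨hwV, h⟩)).ne h0
      exact (hin w hwV hwI).2.1 h0

omit [FiniteDimensional ℝ E] in
lemma dm_add_one_le_card {A : Finset E} (hA : A.Nonempty) : dm A + 1 ≤ A.card := by
  have : Nonempty A := hA.to_subtype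
  have h := finrank_vectorSpan_range_add_one_le ℝ ((↑) : A → E)
  have h2 : Set.range ((↑) : A → E) = (A : Set E) := by simp
  rw [h2, Fintype.card_coe] at h
  exact h

open Classical in
theorem pull_increases {V : Finset E} (hV : ∀ v ∈ V, IsF V {v}) {k : ℕ} (hk : k < dm V)
    {G A : Finset E} (hG : IsF V G) (hGV : G ≠ V) (hkG : k ≤ dm G) (hAG : A ⊆ G)
    (hAne : A.Nonempty) (hAc : A.card ≤ k + 1) (hA : ¬ IsF V A) :
    ∃ V' : Finset E, V'.card = V.card ∧
      convexHull ℝ (V : Set E) ⊆ convexHull ℝ (V' : Set E) ∧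
      (∀ v ∈ V', IsF V' {v}) ∧ (KF V k).card < (KF V' k).card := by
  -- a minimal non-face
  obtain ⟨A0, hA0, hmin⟩ := Finset.exists_min_image
    (A.powerset.filter (fun B => B.Nonempty ∧ ¬ IsF V B)) Finset.card
    ⟨A, Finset.mem_filter.2 ⟨Finset.mem_powerset.2 (Finset.Subset.refl _), hAne, hA⟩⟩
  rw [Finset.mem_filter, Finset.mem_powerset] at hA0
  obtain ⟨hA0A, hA0ne, hA0F⟩ := hA0
  have hA0G : A0 ⊆ G := hA0A.trans hAG
  have hA0c : A0.card ≤ k + 1 := (Finset.card_le_card hA0A).trans hAc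
  have hGV' := hG.subset
  obtain ⟨x, hxA0⟩ := hA0ne
  have hxG : x ∈ G := hA0G hxA0
  have hxV : x ∈ V := hGV' hxG
  obtain ⟨B, hB⟩ : ∃ B, B = A0.erase x := ⟨_, rfl⟩
  have hBA : insert x B = A0 := by rw [hB]; exact Finset.insert_erase hxA0
  have hxB : x ∉ B := by rw [hB]; exact Finset.notMem_erase _ _
  have hBne : B.Nonempty := by
    rw [Finset.nonempty_iff_ne_empty]
    intro h
    rw [h] at hBA
    apply hA0F
    rw [← hBA]
    exact hV x hxV
  have hBc : B.card + 1 = A0.card := by rw [← hBA, Finset.card_insert_of_notMem hxB]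
  have hBF : IsF V B := by
    by_contra hcon
    have := hmin B (Finset.mem_filter.2 ⟨Finset.mem_powerset.2
      ((Finset.subset_insert x B).trans (hBA ▸ hA0A)), hBne, hcon⟩)
    omega
  have hBG : B ⊆ G := (Finset.subset_insert x B).trans (hBA ▸ hA0G)
  have hdmB := dm_add_one_le_card hBne
  -- the face F'
  obtain ⟨F0, q1, q2, q3, q4, q5⟩ := facet_avoid hG hxG _ B le_rfl hBF hBG hBne hxB
  have hk1 : 1 ≤ k := by
    have := hBne.card_pos
    omega
  obtain ⟨F', r1, r2, r3, r4⟩ := chain hBF hBne (j := k - 1) (by omega) (dm F0) F0 (by omega)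
    q1 q2 (by omega)
  have hxF' : x ∉ F' := fun h => q4 (r3 h)
  have hF'G : F' ⊆ G := r3.trans q3
  have hF'ne : F'.Nonempty := hBne.mono r2
  have hnot : ¬ IsF V (insert x F') := fun h => hA0F (hBA ▸ isF_insert hBF r1 r2 hxV hxF' h)
  -- pull
  have hVc : 2 ≤ V.card := by
    have := dm_add_one_le_card (A := V) ⟨x, hxV⟩
    omega
  obtain ⟨x', hx'V, hhull, hx'F, hold, hnew⟩ := exists_pull hV hxV hVc
  obtain ⟨V', hV'⟩ : ∃ V', V' = insert x' (V.erase x) := ⟨_, rfl⟩
  rw [← hV'] at hhull hx'F hold hnew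
  have hx'e : x' ∉ V.erase x := fun h => hx'V (Finset.mem_of_mem_erase h)
  refine ⟨V', ?_, hhull, ?_, ?_⟩
  · rw [hV', Finset.card_insert_of_notMem hx'e, Finset.card_erase_of_mem hxV]
    omega
  · intro v hv
    rw [hV'] at hv
    rcases Finset.mem_insert.1 hv with rfl | hv
    · exact hx'F
    · exact hold _ (hV v (Finset.mem_of_mem_erase hv))
        (by simpa using (Finset.ne_of_mem_erase hv).symm)
  -- counting
  obtain ⟨Kx, hKx⟩ : ∃ Kx, Kx = (KF V k).filter (fun M => x ∈ M) := ⟨_, rfl⟩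
  obtain ⟨K0, hK0⟩ : ∃ K0, K0 = (KF V k).filter (fun M => x ∉ M) := ⟨_, rfl⟩
  have hKsum : Kx.card + K0.card = (KF V k).card := by
    rw [hKx, hK0]; exact Finset.card_filter_add_card_filter_not _
  obtain ⟨Fx, hFx⟩ : ∃ Fx, Fx = V.powerset.filter (fun F => F.Nonempty ∧ IsF V F ∧ dm F + 1 = k ∧
    x ∉ F ∧ ∃ H, IsF V H ∧ H ≠ V ∧ x ∈ H ∧ F ⊆ H) := ⟨_, rfl⟩
  have hFxm : ∀ F, F ∈ Fx ↔ F.Nonempty ∧ IsF V F ∧ dm F + 1 = k ∧
    x ∉ F ∧ ∃ H, IsF V H ∧ H ≠ V ∧ x ∈ H ∧ F ⊆ H := by
    intro F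
    rw [hFx, Finset.mem_filter, Finset.mem_powerset]
    exact ⟨fun h => h.2, fun h => ⟨h.2.1.subset, h⟩⟩
  have hF'Fx : F' ∈ Fx := (hFxm F').2 ⟨hF'ne, r1, by omega, hxF', G, hG, hGV, hxG, hF'G⟩
  have hchoose : ∀ M ∈ Kx, ∃ F, F ∈ Fx ∧ F ≠ F' ∧ F ⊆ M := by
    intro M hM
    rw [hKx, Finset.mem_filter, mem_KF] at hM
    obtain ⟨⟨hMne, hMF, hMd⟩, hxM⟩ := hM
    have hMV := hMF.subset
    have hy : ∃ y ∈ M, y ≠ x ∧ (F' ⊆ M → y ∉ F') := by
      by_cases hFM : F' ⊆ M
      · have hne : insert x F' ≠ M := fun h => hnot (h ▸ hMF)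
        have hsub : insert x F' ⊆ M := Finset.insert_subset hxM hFM
        obtain ⟨y, hyM, hy⟩ := (Finset.ssubset_iff_of_subset hsub).1
          (hsub.ssubset_of_ne hne)
        rw [Finset.mem_insert, not_or] at hy
        exact ⟨y, hyM, hy.1, fun _ => hy.2⟩
      · have hc := dm_add_one_le_card hMne
        obtain ⟨y, hyM, hyx⟩ := Finset.exists_mem_ne (s := M) (by omega) x
        exact ⟨y, hyM, hyx, fun h => absurd h hFM⟩
    obtain ⟨y, hyM, hyx, hyF⟩ := hy
    obtain ⟨F, g1, g2, g3, g4, g5⟩ := facet_avoid hMF hxM _ {y} le_rfl (hV y (hMV hyM))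
      (by simpa using hyM) (by simp) (by simpa using hyx.symm)
    have hyF2 : y ∈ F := g2 (by simp)
    refine ⟨F, (hFxm F).2 ⟨⟨y, hyF2⟩, g1, by omega, g4, M, hMF, ?_, hxM, g3⟩, ?_, g3⟩
    · rintro rfl; omega
    · rintro rfl
      exact hyF g3 hyF2
  choose! c hc using hchoose
  have hsubset : ∀ M ∈ Kx, ∀ N ∈ Kx, c M = c N → M ⊆ N := by
    intro M hM N hN hMN v hv
    obtain ⟨a1, a2, a3⟩ := hc M hM
    obtain ⟨b1, b2, b3⟩ := hc N hN
    rw [hKx, Finset.mem_filter, mem_KF] at hM hN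
    obtain ⟨⟨hMne, hMF, hMd⟩, hxM⟩ := hM
    obtain ⟨⟨hNne, hNF, hNd⟩, hxN⟩ := hN
    obtain ⟨e1, e2, e3, e4, e5⟩ := (hFxm _).1 a1
    have hx0 : x ∉ affineSpan ℝ ((c M : Finset E) : Set E) :=
      fun h => e4 (e2.mem_of_mem_span hxV h)
    have hdx := dm_insert_eq e1 hx0
    have hsub : insert x (c M) ⊆ M := Finset.insert_subset hxM a3
    have hsubN : insert x (c M) ⊆ N := Finset.insert_subset hxN (hMN ▸ b3)
    have hvs : v ∈ affineSpan ℝ ((insert x (c M) : Finset E) : Set E) := by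
      by_contra hcon
      have h1 := dm_insert_eq (Finset.insert_nonempty x (c M)) hcon
      have h2 : dm (insert v (insert x (c M))) ≤ dm M := dm_mono (Finset.insert_subset hv hsub)
      omega
    refine hNF.mem_of_mem_span (hMF.subset hv) ?_
    exact affineSpan_mono ℝ (by exact_mod_cast hsubN) hvs
  have hKxlt : Kx.card < Fx.card := by
    have h1 : Kx.card ≤ (Fx.erase F').card := by
      apply Finset.card_le_card_of_injOn c
      · intro M hM
        obtain ⟨a1, a2, a3⟩ := hc M hM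
        exact Finset.mem_coe.2 (Finset.mem_erase.2 ⟨a2, a1⟩)
      · intro M hM N hN hMN
        exact Finset.Subset.antisymm (hsubset M hM N hN hMN) (hsubset N hN M hM hMN.symm)
    have h2 := Finset.card_erase_lt_of_mem hF'Fx
    omega
  have hx'F2 : ∀ F ∈ Fx, x' ∉ F := fun F hF h => hx'V (((hFxm F).1 hF).2.1.subset h)
  have hdisj : Disjoint K0 (Fx.image (fun F => insert x' F)) := by
    rw [Finset.disjoint_left]
    intro M hM hM2
    rw [Finset.mem_image] at hM2
    obtain ⟨F, hF, rfl⟩ := hM2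
    rw [hK0, Finset.mem_filter, mem_KF] at hM
    exact hx'V (hM.1.2.1.subset (Finset.mem_insert_self _ _))
  have hsub : K0 ∪ Fx.image (fun F => insert x' F) ⊆ KF V' k := by
    intro M hM
    rw [mem_KF]
    rcases Finset.mem_union.1 hM with hM | hM
    · rw [hK0, Finset.mem_filter, mem_KF] at hM
      exact ⟨hM.1.1, hold M hM.1.2.1 hM.2, hM.1.2.2⟩
    · rw [Finset.mem_image] at hM
      obtain ⟨F, hF, rfl⟩ := hM
      obtain ⟨e1, e2, e3, e4, H, e5, e6, e7, e8⟩ := (hFxm _).1 hF
      obtain ⟨g1, g2⟩ := hnew F H e2 e4 e5 e6 e7 e8 e1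
      exact ⟨Finset.insert_nonempty _ _, g1, by omega⟩
  have hinj : (Fx.image (fun F => insert x' F)).card = Fx.card := by
    apply Finset.card_image_of_injOn
    intro F1 h1 F2 h2 h12
    have e1 := hx'F2 F1 h1
    have e2 := hx'F2 F2 h2
    have h12' : insert x' F1 = insert x' F2 := h12
    have : (insert x' F1).erase x' = (insert x' F2).erase x' := by rw [h12']
    rwa [Finset.erase_insert e1, Finset.erase_insert e2] at this
  have hle := Finset.card_le_card hsub
  rw [Finset.card_union_of_disjoint hdisj, hinj] at hle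
  omega

omit [FiniteDimensional ℝ E] in
lemma hull_inj {V A B : Finset E} (hA : IsF V A) (hB : IsF V B)
    (h : convexHull ℝ (A : Set E) = convexHull ℝ (B : Set E)) : A = B := by
  apply Finset.Subset.antisymm
  · intro v hv
    apply hB.mem_of_mem_span (hA.subset hv)
    apply convexHull_subset_affineSpan
    rw [← h]; exact subset_convexHull ℝ _ hv
  · intro v hv
    apply hA.mem_of_mem_span (hB.subset hv)
    apply convexHull_subset_affineSpan
    rw [h]; exact subset_convexHull ℝ _ hv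

omit [FiniteDimensional ℝ E] in
lemma finrank_hull (A : Set E) :
    Module.finrank ℝ (vectorSpan ℝ (convexHull ℝ A)) = Module.finrank ℝ (vectorSpan ℝ A) := by
  rw [← direction_affineSpan, affineSpan_convexHull, direction_affineSpan]

/-- the geometric `k`-faces correspond to the members of `KF V k`. -/
theorem ncard_faces (V : Finset E) (k : ℕ) :
    Set.ncard {F : Set E | F.Nonempty ∧ Convex ℝ F ∧
      IsExtreme ℝ (convexHull ℝ (V : Set E)) F ∧
      Module.finrank ℝ (vectorSpan ℝ F) = k} = (KF V k).card := by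
  classical
  have h1 : {F : Set E | F.Nonempty ∧ Convex ℝ F ∧ IsExtreme ℝ (convexHull ℝ (V : Set E)) F ∧
      Module.finrank ℝ (vectorSpan ℝ F) = k} =
      (fun A : Finset E => convexHull ℝ (A : Set E)) '' (KF V k : Set (Finset E)) := by
    ext F
    constructor
    · rintro ⟨h1, h2, h3, h4⟩
      have h5 := extreme_eq_hull V h2 h3
      refine ⟨V.filter (· ∈ F), ?_, h5.symm⟩
      rw [Finset.mem_coe, mem_KF]
      refine ⟨?_, extreme_isF V h1 h2 h3, ?_⟩
      · rw [h5, convexHull_nonempty_iff] at h1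
        exact_mod_cast h1
      · rw [h5, finrank_hull] at h4
        exact h4
    · rintro ⟨A, hA, rfl⟩
      rw [Finset.mem_coe, mem_KF] at hA
      refine ⟨?_, convex_convexHull ℝ _, hA.2.1.isExtreme, ?_⟩
      · rw [convexHull_nonempty_iff]; exact_mod_cast hA.1
      · rw [finrank_hull]; exact hA.2.2
  rw [h1, Set.InjOn.ncard_image, Set.ncard_coe_finset]
  intro A hA B hB hAB
  rw [Finset.mem_coe, mem_KF] at hA hB
  exact hull_inj hA.2.1 hB.2.1 hAB

omit [FiniteDimensional ℝ E] in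
lemma extremePoints_hull {V : Finset E} (hV : ∀ v ∈ V, IsF V {v}) :
    Set.extremePoints ℝ (convexHull ℝ (V : Set E)) = (V : Set E) := by
  apply Set.Subset.antisymm extremePoints_convexHull_subset
  intro v hv
  have := (hV v hv).isExtreme
  rw [Finset.coe_singleton, convexHull_singleton] at this
  exact isExtreme_singleton.1 this

/-- every polytope is the hull of its finite set of vertices. -/
theorem exists_vertices (S : Finset E) :
    ∃ V : Finset E, (V : Set E) = Set.extremePoints ℝ (convexHull ℝ (S : Set E)) ∧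
      convexHull ℝ (V : Set E) = convexHull ℝ (S : Set E) ∧ ∀ v ∈ V, IsF V {v} := by
  classical
  have hfin : (Set.extremePoints ℝ (convexHull ℝ (S : Set E))).Finite :=
    S.finite_toSet.subset extremePoints_convexHull_subset
  have hV : (hfin.toFinset : Set E) = Set.extremePoints ℝ (convexHull ℝ (S : Set E)) := by simp
  have hhull : convexHull ℝ (hfin.toFinset : Set E) = convexHull ℝ (S : Set E) := by
    have h1 := closure_convexHull_extremePoints (s := convexHull ℝ (S : Set E))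
      (S.finite_toSet.isCompact_convexHull ℝ) (convex_convexHull ℝ _)
    rw [← hV, IsClosed.closure_eq] at h1
    · exact h1
    · exact (hfin.toFinset.finite_toSet.isCompact_convexHull ℝ).isClosed
  refine ⟨hfin.toFinset, hV, hhull, ?_⟩
  intro v hv
  have hv' : v ∈ Set.extremePoints ℝ (convexHull ℝ (S : Set E)) := by rw [← hV]; exact hv
  have h1 : IsExtreme ℝ (convexHull ℝ (hfin.toFinset : Set E)) {v} := by
    rw [hhull]; exact isExtreme_singleton.2 hv'
  have h2 := extreme_isF hfin.toFinset (Set.singleton_nonempty v) (convex_singleton v) h1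
  convert h2 using 1
  ext u
  simp only [Finset.mem_singleton, Finset.mem_filter, Set.mem_singleton_iff]
  constructor
  · rintro rfl; exact ⟨hv, rfl⟩
  · exact fun h => h.2

end

theorem klee :
  ∀ (d : ℕ) (S : Finset (EuclideanSpace ℝ (Fin d))) (k : ℕ),
    (interior (convexHull ℝ (S : Set (EuclideanSpace ℝ (Fin d))))).Nonempty →
    (d - 1) / 2 ≤ k → k < d →
    (∀ T : Finset (EuclideanSpace ℝ (Fin d)),
      (interior (convexHull ℝ (T : Set (EuclideanSpace ℝ (Fin d))))).Nonempty →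
      Set.ncard (Set.extremePoints ℝ (convexHull ℝ (T : Set (EuclideanSpace ℝ (Fin d))))) =
        Set.ncard (Set.extremePoints ℝ (convexHull ℝ (S : Set (EuclideanSpace ℝ (Fin d))))) →
      Set.ncard {F : Set (EuclideanSpace ℝ (Fin d)) | F.Nonempty ∧ Convex ℝ F ∧
          IsExtreme ℝ (convexHull ℝ (T : Set (EuclideanSpace ℝ (Fin d)))) F ∧
          Module.finrank ℝ (vectorSpan ℝ F) = k} ≤
        Set.ncard {F : Set (EuclideanSpace ℝ (Fin d)) | F.Nonempty ∧ Convex ℝ F ∧
          IsExtreme ℝ (convexHull ℝ (S : Set (EuclideanSpace ℝ (Fin d)))) F ∧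
          Module.finrank ℝ (vectorSpan ℝ F) = k}) →
    ∀ F : Set (EuclideanSpace ℝ (Fin d)), F.Nonempty → Convex ℝ F →
      IsExtreme ℝ (convexHull ℝ (S : Set (EuclideanSpace ℝ (Fin d)))) F →
      Module.finrank ℝ (vectorSpan ℝ F) = d - 1 →
      Set.ncard (Set.extremePoints ℝ F) = d := by
  classical
  intro d S k hint hk1 hk2 hmax F hFne hFconv hFext hFdim
  obtain ⟨V, hVext, hVhull, hV⟩ := exists_vertices S
  rw [← hVhull] at hint hmax hFext
  obtain ⟨G, hG⟩ : ∃ G, G = V.filter (· ∈ F) := ⟨_, rfl⟩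
  have hFG : F = convexHull ℝ (G : Set (EuclideanSpace ℝ (Fin d))) := by
    rw [hG]; exact extreme_eq_hull V hFconv hFext
  have hGF : IsF V G := by rw [hG]; exact extreme_isF V hFne hFconv hFext
  have hGne : G.Nonempty := by
    rw [hFG, convexHull_nonempty_iff] at hFne
    exact_mod_cast hFne
  have hGd : dm G = d - 1 := by
    rw [hFG, finrank_hull] at hFdim
    exact hFdim
  have hext : Set.extremePoints ℝ F = (G : Set (EuclideanSpace ℝ (Fin d))) := by
    rw [hFext.extremePoints_eq, extremePoints_hull hV, hG]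
    ext v
    simp only [Set.mem_inter_iff, Finset.mem_coe, Finset.coe_filter, Set.mem_ofPred_eq]
    exact and_comm
  rw [hext, Set.ncard_coe_finset]
  have hVd : dm V = d := by
    have h1 := (convex_convexHull ℝ (V : Set (EuclideanSpace ℝ (Fin d)))).interior_nonempty_iff_affineSpan_eq_top.1 hint
    rw [affineSpan_convexHull] at h1
    unfold dm
    rw [← direction_affineSpan, h1, AffineSubspace.direction_top, finrank_top]
    simp
  have hGc := dm_add_one_le_card hGne
  by_contra hne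
  obtain ⟨A, hAG, hAne, hAc, hA⟩ := exists_nonface hGF.subset (n := d - 1) hGd.le (by omega)
  have hAc' : A.card ≤ k + 1 := by omega
  have hGV : G ≠ V := by rintro rfl; omega
  obtain ⟨V', hV'c, hV'hull, hV', hlt⟩ := pull_increases hV (by omega : k < dm V) hGF hGV
    (by omega) hAG hAne hAc' hA
  have h1 := hmax V' (hint.mono (interior_mono hV'hull)) (by
    rw [extremePoints_hull hV, extremePoints_hull hV', Set.ncard_coe_finset,
      Set.ncard_coe_finset, hV'c])
  rw [ncard_faces, ncard_faces] at h1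
  omega

end Pool.Agent.H176R2
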