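import Pool.Agent.H176R2.Klee2

set_option autoImplicit false

namespace Pool.Agent.H176R2

open Set

section
variable {E : Type*} [NormedAddCommGroup E] [NormedSpace ℝ E] [FiniteDimensional ℝ E]

lemma edge_card {V e : Finset E} (hV : ∀ v ∈ V, IsF V {v}) (he : IsF V e) (hd : dm e = 1) :
    e.card = 2 := by
  have hne : e.Nonempty := by
    rw [Finset.nonempty_iff_ne_empty]
    rintro rfl
    rw [dm, Finset.coe_empty, vectorSpan_empty, finrank_bot] at hd
    omega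
  have h1 := dm_add_one_le_card hne
  by_contra h2
  obtain ⟨A, hA, hAne, hAc, hAF⟩ := exists_nonface he.subset (n := 1) hd.le (by omega)
  have h3 := hAne.card_pos
  obtain ⟨v, rfl⟩ := Finset.card_eq_one.1 (show A.card = 1 by omega)
  exact hAF (hV v (he.subset (hA (by simp))))

open Classical in
lemma next_vertex {V H : Finset E} (hV : ∀ v ∈ V, IsF V {v}) (hH : IsF V H) (hd : dm H = 2)
    {a b : E} (ha : a ∈ H) (hb : b ∈ H) (hab : a ≠ b) :
    ∃ w ∈ H, w ≠ a ∧ w ≠ b ∧ IsF V {a, w} := by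
  obtain ⟨e, h1, h2, h3, h4, h5⟩ := facet_avoid hH hb _ {a} le_rfl (hV a (hH.subset ha))
    (by simpa using ha) (by simp) (by simpa using hab.symm)
  have hc := edge_card hV h1 (by omega)
  obtain ⟨x, y, hxy, rfl⟩ := Finset.card_eq_two.1 hc
  have hae : a ∈ ({x, y} : Finset E) := h2 (by simp)
  rw [Finset.mem_insert, Finset.mem_singleton] at hae
  rcases hae with rfl | rfl
  · refine ⟨y, h3 (by simp), hxy.symm, ?_, h1⟩
    rintro rfl; exact h4 (by simp)
  · refine ⟨x, h3 (by simp), hxy, ?_, ?_⟩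
    · rintro rfl; exact h4 (by simp)
    · rw [Finset.pair_comm]; exact h1

open Classical in
lemma three_edges {V H : Finset E} (hHV : H ⊆ V) (hd : dm H ≤ 2) {v w1 w2 w3 : E}
    (hv : v ∈ H) (hw1 : w1 ∈ H) (hw2 : w2 ∈ H) (hw3 : w3 ∈ H)
    (h1 : IsF V {v, w1}) (h2 : IsF V {v, w2}) (h3 : IsF V {v, w3})
    (n1 : w1 ≠ v) (n2 : w2 ≠ v) (n3 : w3 ≠ v) (n12 : w1 ≠ w2) (n13 : w1 ≠ w3) (n23 : w2 ≠ w3) :
    False := by
  have e1 : w1 ∉ affineSpan ℝ (({v} : Finset E) : Set E) := by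
    simpa [AffineSubspace.mem_affineSpan_singleton] using n1
  have d1 := dm_insert_eq (A := {v}) (by simp) e1
  have e2 : w2 ∉ affineSpan ℝ ((insert w1 {v} : Finset E) : Set E) := by
    intro h
    have h1' : IsF V (insert w1 {v}) := by rw [Finset.pair_comm]; exact h1
    have := h1'.mem_of_mem_span (hHV hw2) h
    simp only [Finset.mem_insert, Finset.mem_singleton] at this
    rcases this with h | h
    · exact n12 h.symm
    · exact n2 h
  have d2 := dm_insert_eq (A := insert w1 {v}) (by simp) e2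
  have e3 : w3 ∈ affineSpan ℝ ((insert w2 (insert w1 {v}) : Finset E) : Set E) := by
    by_contra hcon
    have d3 := dm_insert_eq (A := insert w2 (insert w1 {v})) (by simp) hcon
    have d4 : dm (insert w3 (insert w2 (insert w1 {v}))) ≤ dm H := by
      apply dm_mono
      intro u hu
      simp only [Finset.mem_insert, Finset.mem_singleton] at hu
      rcases hu with rfl | rfl | rfl | rfl <;> assumption
    omega
  have e4 : w3 - v ∈ vectorSpan ℝ (insert w2 (insert w1 {v}) : Set E) := by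
    have hv' : v ∈ affineSpan ℝ ((insert w2 (insert w1 {v}) : Finset E) : Set E) :=
      subset_affineSpan ℝ _ (by simp)
    have := AffineSubspace.vsub_mem_direction e3 hv'
    rw [direction_affineSpan] at this
    simpa using this
  rw [vectorSpan_insert_eq _ (p := v) (by simp), vectorSpan_insert_eq _ (p := v) (by simp),
    vectorSpan_singleton, bot_sup_eq, Submodule.mem_sup] at e4
  obtain ⟨y, hy, z, hz, hyz⟩ := e4
  obtain ⟨s, rfl⟩ := Submodule.mem_span_singleton.1 hy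
  obtain ⟨t, rfl⟩ := Submodule.mem_span_singleton.1 hz
  have key : ∀ ψ : E →ᵃ[ℝ] ℝ, ψ v = 0 → ψ w3 = s * ψ w1 + t * ψ w2 := by
    intro ψ h0
    have a1 : ψ.linear (w3 - v) = ψ w3 - ψ v := by simpa using ψ.linearMap_vsub w3 v
    have a2 : ψ.linear (w1 - v) = ψ w1 - ψ v := by simpa using ψ.linearMap_vsub w1 v
    have a3 : ψ.linear (w2 - v) = ψ w2 - ψ v := by simpa using ψ.linearMap_vsub w2 v
    rw [← hyz, map_add, map_smul, map_smul, a2, a3, h0, smul_eq_mul, smul_eq_mul] at a1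
    linarith
  have sgn : ∀ {w : E} (h : IsF V {v, w}), ∃ ψ : E →ᵃ[ℝ] ℝ, ψ v = 0 ∧ ψ w = 0 ∧
      ∀ u ∈ V, u ≠ v → u ≠ w → ψ u < 0 := by
    intro w h
    obtain ⟨ψ, p1, p2⟩ := h
    refine ⟨ψ, ((p2 v).1 (by simp)).2, ((p2 w).1 (by simp)).2, fun u hu h1 h2 => ?_⟩
    refine lt_of_le_of_ne (p1 u hu) fun h0 => ?_
    have := (p2 u).2 ⟨hu, h0⟩
    simp only [Finset.mem_insert, Finset.mem_singleton] at this
    tauto
  obtain ⟨ψ1, a1, a2, a3⟩ := sgn h1
  obtain ⟨ψ2, b1, b2, b3⟩ := sgn h2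
  obtain ⟨ψ3, c1, c2, c3⟩ := sgn h3
  have k1 := key ψ1 a1
  have k2 := key ψ2 b1
  have k3 := key ψ3 c1
  rw [a2] at k1
  rw [b2] at k2
  rw [c2] at k3
  have s1 := a3 w2 (hHV hw2) n2 n12.symm
  have s2 := a3 w3 (hHV hw3) n3 n13.symm
  have s3 := b3 w1 (hHV hw1) n1 n12
  have s4 := b3 w3 (hHV hw3) n3 n23.symm
  have s5 := c3 w1 (hHV hw1) n1 n13
  have s6 := c3 w2 (hHV hw2) n2 n23
  have ht : 0 < t := by
    by_contra hcon
    push Not at hcon
    nlinarith
  have hs : 0 < s := by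
    by_contra hcon
    push Not at hcon
    nlinarith
  nlinarith

open Classical in
/-- In a 3-polytope in which the edges at `ai`, `aj`, `p` go to prescribed vertices, the four
points `ai, aj, bi, bj` lie on a common supporting plane not containing `ak`. -/
theorem quad {V : Finset E} (hV : ∀ v ∈ V, IsF V {v}) (hd : dm V = 3)
    {ai aj ak bi bj p : E} (hai : ai ∈ V) (haj : aj ∈ V) (hak : ak ∈ V) (hbi : bi ∈ V)
    (nij : ai ≠ aj) (nik : ai ≠ ak) (nib : ai ≠ bi) (nkb : ak ≠ bi)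
    (njb : aj ≠ bi) (npi : p ≠ ai) (npj : p ≠ aj) (npb : p ≠ bi)
    (hN1 : ∀ w ∈ V, w ≠ ai → IsF V {ai, w} → w = aj ∨ w = ak ∨ w = bi ∨ w = p)
    (hN2 : ∀ w ∈ V, w ≠ aj → IsF V {aj, w} → w = ai ∨ w = ak ∨ w = bj ∨ w = p)
    (hN3 : ∀ w ∈ V, w ≠ p → IsF V {p, w} → w = ai ∨ w = aj ∨ w = ak)
    (h1 : IsF V {ai, bi}) (h2 : IsF V {ai, aj}) (h3 : IsF V {ai, p}) :
    ∃ φ : E →ᵃ[ℝ] ℝ, φ ai = 0 ∧ φ aj = 0 ∧ φ bi = 0 ∧ φ bj = 0 ∧ φ ak < 0 := by
  have hVV : IsF V V := ⟨0, fun _ _ => le_rfl, fun v => by simp⟩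
  obtain ⟨H, g1, g2, g3, g4, g5⟩ := facet_avoid hVV hak _ {ai, bi} le_rfl h1
    (by intro u hu; simp only [Finset.mem_insert, Finset.mem_singleton] at hu
        rcases hu with rfl | rfl <;> assumption) (by simp)
    (by simp only [Finset.mem_insert, Finset.mem_singleton, not_or]; exact ⟨nik.symm, nkb⟩)
  have hH2 : dm H = 2 := by omega
  have haiH : ai ∈ H := g2 (by simp)
  have hbiH : bi ∈ H := g2 (by simp)
  -- the second edge at `ai`
  have hajH : aj ∈ H := by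
    obtain ⟨w, k1, k2, k3, k4⟩ := next_vertex hV g1 hH2 haiH hbiH nib
    rcases hN1 w (g3 k1) k2 k4 with rfl | rfl | rfl | rfl
    · exact k1
    · exact absurd k1 g4
    · exact absurd rfl k3
    · obtain ⟨u, l1, l2, l3, l4⟩ := next_vertex hV g1 hH2 k1 haiH npi
      rcases hN3 u (g3 l1) l2 l4 with rfl | rfl | rfl
      · exact absurd rfl l3
      · exact l1
      · exact absurd l1 g4
  have hpH : p ∉ H := fun hp => three_edges g3 hH2.le haiH hbiH hajH hp h1 h2 h3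
    nib.symm nij.symm npi njb.symm npb.symm npj.symm
  have hbjH : bj ∈ H := by
    obtain ⟨w, k1, k2, k3, k4⟩ := next_vertex hV g1 hH2 hajH haiH nij.symm
    rcases hN2 w (g3 k1) k2 k4 with rfl | rfl | rfl | rfl
    · exact absurd rfl k3
    · exact absurd k1 g4
    · exact k1
    · exact absurd k1 hpH
  obtain ⟨φ, p1, p2⟩ := g1
  refine ⟨φ, ((p2 _).1 haiH).2, ((p2 _).1 hajH).2, ((p2 _).1 hbiH).2, ((p2 _).1 hbjH).2, ?_⟩
  exact lt_of_le_of_ne (p1 _ hak) fun h => g4 ((p2 _).2 ⟨hak, h⟩)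

end

/-- a general affine function on `ℝ³`. -/
noncomputable def aff3 (a b c d : ℝ) : (Fin 3 → ℝ) →ᵃ[ℝ] ℝ :=
  (a • (LinearMap.proj 0 : (Fin 3 → ℝ) →ₗ[ℝ] ℝ) + b • (LinearMap.proj 1 : (Fin 3 → ℝ) →ₗ[ℝ] ℝ)
    + c • (LinearMap.proj 2 : (Fin 3 → ℝ) →ₗ[ℝ] ℝ)).toAffineMap + AffineMap.const ℝ _ d

lemma aff3_apply (a b c d : ℝ) (x : Fin 3 → ℝ) :
    aff3 a b c d x = a * x 0 + b * x 1 + c * x 2 + d := by
  simp [aff3]

lemma exists_coords (φ : (Fin 3 → ℝ) →ᵃ[ℝ] ℝ) :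
    ∃ a b c d : ℝ, ∀ x, φ x = a * x 0 + b * x 1 + c * x 2 + d := by
  refine ⟨φ.linear (Pi.single 0 1), φ.linear (Pi.single 1 1), φ.linear (Pi.single 2 1), φ 0, ?_⟩
  intro x
  have h1 : φ x = φ.linear x + φ 0 := by
    have := congrFun φ.decomp x
    simpa using this
  have h2 : x = x 0 • Pi.single 0 1 + x 1 • Pi.single 1 1 + x 2 • Pi.single 2 1 := by
    ext i; fin_cases i <;> simp
  have h3 : φ.linear x = x 0 * φ.linear (Pi.single 0 1) + x 1 * φ.linear (Pi.single 1 1)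
      + x 2 * φ.linear (Pi.single 2 1) := by
    conv_lhs => rw [h2]
    simp only [map_add, map_smul, smul_eq_mul]
  rw [h1, h3]; ring

end Pool.Agent.H176R2
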