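import Pool.Agent.H176R2.Shadow1

set_option autoImplicit false

namespace Pool.Agent.H176R2

open Set

lemma isF_idx {E : Type*} [NormedAddCommGroup E] [NormedSpace ℝ E] {n : ℕ} (f : Fin n → E)
    (hf : Function.Injective f) (V I : Finset E) (J : Finset (Fin n))
    (hV : ∀ x, x ∈ V ↔ ∃ i, f i = x) (hI : ∀ x, x ∈ I ↔ ∃ i ∈ J, f i = x)
    (ψ : E →ᵃ[ℝ] ℝ) (h0 : ∀ i, i ∈ J → ψ (f i) = 0) (h1 : ∀ i, i ∉ J → ψ (f i) < 0) :
    IsF V I := by
  refine ⟨ψ, ?_, ?_⟩
  · intro v hv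
    obtain ⟨i, rfl⟩ := (hV v).1 hv
    by_cases hi : i ∈ J
    · exact (h0 i hi).le
    · exact (h1 i hi).le
  · intro v
    constructor
    · intro hv
      obtain ⟨i, hi, rfl⟩ := (hI v).1 hv
      exact ⟨(hV _).2 ⟨i, rfl⟩, h0 i hi⟩
    · rintro ⟨hv, h⟩
      obtain ⟨i, rfl⟩ := (hV v).1 hv
      by_cases hi : i ∈ J
      · exact (hI _).2 ⟨i, hi, rfl⟩
      · exact absurd h (h1 i hi).ne

open Classical in
lemma seg_iff {E : Type*} [NormedAddCommGroup E] [NormedSpace ℝ E] [FiniteDimensional ℝ E]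
    {n : ℕ} (f : Fin n → E)
    (hext : ∀ v, f v ∈ Set.extremePoints ℝ (convexHull ℝ (Set.range f)))
    (V : Finset E) (hV : ∀ x, x ∈ V ↔ ∃ i, f i = x) (u w : Fin n) :
    IsExtreme ℝ (convexHull ℝ (Set.range f)) (segment ℝ (f u) (f w)) ↔
      IsF V {f u, f w} := by
  have hVr : (V : Set E) = Set.range f := by
    ext x; simp [hV]
  rw [← hVr] at hext ⊢
  constructor
  · intro h
    have h2 := extreme_isF V ⟨f u, left_mem_segment ℝ _ _⟩ (convex_segment _ _) h
    convert h2 using 1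
    ext x
    rw [Finset.mem_filter, Finset.mem_insert, Finset.mem_singleton]
    constructor
    · rintro (rfl | rfl)
      · exact ⟨(hV _).2 ⟨u, rfl⟩, left_mem_segment ℝ _ _⟩
      · exact ⟨(hV _).2 ⟨w, rfl⟩, right_mem_segment ℝ _ _⟩
    · rintro ⟨hxV, hxs⟩
      obtain ⟨i, rfl⟩ := (hV x).1 hxV
      rw [← insert_endpoints_openSegment, Set.mem_insert_iff, Set.mem_insert_iff] at hxs
      rcases hxs with h | h | h
      · exact Or.inl h
      · exact Or.inr h
      · left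
        have := (mem_extremePoints.1 (hext i)).2 (f u) (extremePoints_subset (hext u)) (f w)
          (extremePoints_subset (hext w)) h
        exact this.1.symm
  · intro h
    have := h.isExtreme
    rwa [Finset.coe_insert, Finset.coe_singleton, convexHull_pair] at this

/-- the stacked triangular prism: `0,1,2` top triangle, `3,4,5` bottom triangle, apexes `6,7`. -/
def gg : Fin 8 → Fin 3 → ℝ :=
  ![![1, 0, 1], ![0, 1, 1], ![-1, -1, 1], ![1, 0, -1], ![0, 1, -1], ![-1, -1, -1],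
    ![0, 0, 2], ![0, 0, -2]]

lemma gg_inj : Function.Injective gg := by
  intro i j h
  have h0 := congrFun h 0
  have h1 := congrFun h 1
  have h2 := congrFun h 2
  fin_cases i <;> fin_cases j <;> first | rfl | (exfalso; simp [gg] at h0 h1 h2; try linarith)

/-- vertex functionals. -/
def vf : Fin 8 → Fin 4 → ℝ :=
  ![![4, -2, 2, -6], ![-2, 4, 2, -6], ![-2, -2, 2, -6], ![4, -2, -2, -6], ![-2, 4, -2, -6],
    ![-2, -2, -2, -6], ![0, 0, 1, -2], ![0, 0, -1, -2]]

noncomputable def VG : Finset (Fin 3 → ℝ) := Finset.univ.map ⟨gg, gg_inj⟩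

lemma mem_VG (x : Fin 3 → ℝ) : x ∈ VG ↔ ∃ i, gg i = x := by simp [VG]

lemma coe_VG : (VG : Set (Fin 3 → ℝ)) = Set.range gg := by
  ext x; simp [mem_VG]

lemma VG_vertex (v : Fin 8) : IsF VG {gg v} := by
  refine isF_idx gg gg_inj VG _ {v} mem_VG (by simp [eq_comm])
    (aff3 (vf v 0) (vf v 1) (vf v 2) (vf v 3)) ?_ ?_
  · intro i hi
    rw [Finset.mem_singleton] at hi
    subst hi
    rw [aff3_apply]
    fin_cases i <;> simp [gg, vf] <;> norm_num
  · intro i hi
    rw [Finset.mem_singleton] at hi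
    rw [aff3_apply]
    fin_cases v <;> fin_cases i <;> first | exact absurd rfl hi | (simp [gg, vf]; try norm_num)

lemma gg_extreme (v : Fin 8) : gg v ∈ Set.extremePoints ℝ (convexHull ℝ (Set.range gg)) := by
  have := (VG_vertex v).isExtreme
  rw [Finset.coe_singleton, convexHull_singleton, coe_VG] at this
  exact isExtreme_singleton.1 this

lemma gg_interior : (interior (convexHull ℝ (Set.range gg))).Nonempty := by
  rw [(convex_convexHull ℝ (Set.range gg)).interior_nonempty_iff_affineSpan_eq_top,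
    affineSpan_convexHull]
  by_contra hne
  have hex : ∃ x, x ∉ affineSpan ℝ (Set.range gg) := by
    by_contra hcon
    push Not at hcon
    exact hne (by ext x; simp [hcon x])
  obtain ⟨x, hx⟩ := hex
  obtain ⟨φ, h1, h2⟩ := exists_affine (Set.range gg) (p := gg 0) ⟨0, rfl⟩ hx
  obtain ⟨a, b, c, d, h⟩ := exists_coords φ
  have k0 := h1 (gg 0) ⟨0, rfl⟩
  have k1 := h1 (gg 1) ⟨1, rfl⟩
  have k2 := h1 (gg 6) ⟨6, rfl⟩
  have k3 := h1 (gg 7) ⟨7, rfl⟩
  rw [h] at k0 k1 k2 k3 h2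
  simp [gg] at k0 k1 k2 k3
  have hc : c = 0 := by linarith
  have hd : d = 0 := by linarith
  have ha : a = 0 := by linarith
  have hb : b = 0 := by linarith
  rw [ha, hb, hc, hd] at h2
  norm_num at h2

open Classical in
lemma gg_edge (u w : Fin 8) (a b c d : ℝ)
    (h : ∀ i, (i = u ∨ i = w) → a * gg i 0 + b * gg i 1 + c * gg i 2 + d = 0)
    (h' : ∀ i, i ≠ u → i ≠ w → a * gg i 0 + b * gg i 1 + c * gg i 2 + d < 0) :
    IsExtreme ℝ (convexHull ℝ (Set.range gg)) (segment ℝ (gg u) (gg w)) := by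
  rw [seg_iff gg gg_extreme VG mem_VG]
  refine isF_idx gg gg_inj VG _ {u, w} mem_VG ?_ (aff3 a b c d) ?_ ?_
  · intro x
    simp only [Finset.mem_insert, Finset.mem_singleton, exists_eq_or_imp, exists_eq_left]
    exact ⟨fun h => h.imp Eq.symm Eq.symm, fun h => h.imp Eq.symm Eq.symm⟩
  · intro i hi
    rw [Finset.mem_insert, Finset.mem_singleton] at hi
    rw [aff3_apply]; exact h i hi
  · intro i hi
    rw [Finset.mem_insert, Finset.mem_singleton, not_or] at hi
    rw [aff3_apply]; exact h' i hi.1 hi.2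

/-- the graph of the stacked prism. -/
def GG : SimpleGraph (Fin 8) where
  Adj u v := u ≠ v ∧ IsExtreme ℝ (convexHull ℝ (Set.range gg)) (segment ℝ (gg u) (gg v))
  symm := ⟨fun u v h => ⟨h.1.symm, by rw [segment_symm]; exact h.2⟩⟩
  loopless := ⟨fun u h => h.1 rfl⟩

lemma GG_adj (u v : Fin 8) : GG.Adj u v ↔
    (u ≠ v ∧ IsExtreme ℝ (convexHull ℝ (Set.range gg)) (segment ℝ (gg u) (gg v))) := Iff.rfl

end Pool.Agent.H176R2
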