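import Pool.Agent.H176R2.Shadow2

set_option autoImplicit false

namespace Pool.Agent.H176R2

open Set

lemma adj_of (u w : Fin 8) (huw : u ≠ w) (a b c d : ℝ)
    (h : ∀ i, (i = u ∨ i = w) → a * gg i 0 + b * gg i 1 + c * gg i 2 + d = 0)
    (h' : ∀ i, i ≠ u → i ≠ w → a * gg i 0 + b * gg i 1 + c * gg i 2 + d < 0) :
    GG.Adj u w := ⟨huw, gg_edge u w a b c d h h'⟩

lemma a03 : GG.Adj 0 3 := adj_of 0 3 (by decide) 2 (-1) 0 (-2)
  (by intro i hi; fin_cases i <;> simp [gg] at hi ⊢ <;> norm_num)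
  (by intro i hi hi'; fin_cases i <;> simp [gg] at hi hi' ⊢ <;> norm_num)

lemma a14 : GG.Adj 1 4 := adj_of 1 4 (by decide) (-1) 2 0 (-2)
  (by intro i hi; fin_cases i <;> simp [gg] at hi ⊢ <;> norm_num)
  (by intro i hi hi'; fin_cases i <;> simp [gg] at hi hi' ⊢ <;> norm_num)

lemma a25 : GG.Adj 2 5 := adj_of 2 5 (by decide) (-1) (-1) 0 (-2)
  (by intro i hi; fin_cases i <;> simp [gg] at hi ⊢ <;> norm_num)
  (by intro i hi hi'; fin_cases i <;> simp [gg] at hi hi' ⊢ <;> norm_num)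

lemma a01 : GG.Adj 0 1 := adj_of 0 1 (by decide) 2 2 1 (-3)
  (by intro i hi; fin_cases i <;> simp [gg] at hi ⊢ <;> norm_num)
  (by intro i hi hi'; fin_cases i <;> simp [gg] at hi hi' ⊢ <;> norm_num)

lemma a12 : GG.Adj 1 2 := adj_of 1 2 (by decide) (-4) 2 1 (-3)
  (by intro i hi; fin_cases i <;> simp [gg] at hi ⊢ <;> norm_num)
  (by intro i hi hi'; fin_cases i <;> simp [gg] at hi hi' ⊢ <;> norm_num)

lemma a02 : GG.Adj 0 2 := adj_of 0 2 (by decide) 2 (-4) 1 (-3)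
  (by intro i hi; fin_cases i <;> simp [gg] at hi ⊢ <;> norm_num)
  (by intro i hi hi'; fin_cases i <;> simp [gg] at hi hi' ⊢ <;> norm_num)

lemma a34 : GG.Adj 3 4 := adj_of 3 4 (by decide) 2 2 (-1) (-3)
  (by intro i hi; fin_cases i <;> simp [gg] at hi ⊢ <;> norm_num)
  (by intro i hi hi'; fin_cases i <;> simp [gg] at hi hi' ⊢ <;> norm_num)

lemma a45 : GG.Adj 4 5 := adj_of 4 5 (by decide) (-4) 2 (-1) (-3)
  (by intro i hi; fin_cases i <;> simp [gg] at hi ⊢ <;> norm_num)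
  (by intro i hi hi'; fin_cases i <;> simp [gg] at hi hi' ⊢ <;> norm_num)

lemma a06 : GG.Adj 0 6 := adj_of 0 6 (by decide) 2 (-1) 2 (-4)
  (by intro i hi; fin_cases i <;> simp [gg] at hi ⊢ <;> norm_num)
  (by intro i hi hi'; fin_cases i <;> simp [gg] at hi hi' ⊢ <;> norm_num)

lemma a16 : GG.Adj 1 6 := adj_of 1 6 (by decide) (-1) 2 2 (-4)
  (by intro i hi; fin_cases i <;> simp [gg] at hi ⊢ <;> norm_num)
  (by intro i hi hi'; fin_cases i <;> simp [gg] at hi hi' ⊢ <;> norm_num)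

lemma a26 : GG.Adj 2 6 := adj_of 2 6 (by decide) (-1) (-1) 2 (-4)
  (by intro i hi; fin_cases i <;> simp [gg] at hi ⊢ <;> norm_num)
  (by intro i hi hi'; fin_cases i <;> simp [gg] at hi hi' ⊢ <;> norm_num)

/-- non-adjacency certificate. -/
lemma nadj_of (u w : Fin 8) (y z : Fin 3 → ℝ) (s t : ℝ) (hs : 0 < s) (ht : 0 < t)
    (hst : s + t = 1) (s' t' : ℝ) (hs' : 0 < s') (ht' : 0 < t') (hst' : s' + t' = 1)
    (hy : y ∈ convexHull ℝ (Set.range gg)) (hz : z ∈ convexHull ℝ (Set.range gg))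
    (hm : ∀ j, s * gg u j + t * gg w j = s' * y j + t' * z j)
    (hno : ∀ r q : ℝ, 0 ≤ r → 0 ≤ q → r + q = 1 → (∀ j, r * gg u j + q * gg w j = y j) → False) :
    ¬ GG.Adj u w := by
  rintro ⟨_, h⟩
  have hmem : s • gg u + t • gg w ∈ segment ℝ (gg u) (gg w) :=
    ⟨s, t, hs.le, ht.le, hst, rfl⟩
  have hop : s • gg u + t • gg w ∈ openSegment ℝ y z := by
    refine ⟨s', t', hs', ht', hst', ?_⟩
    ext j
    simpa using (hm j).symm
  obtain ⟨r, q, hr, hq, hrq, hy'⟩ := h.left_mem_of_mem_openSegment hy hz hmem hop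
  exact hno r q hr hq hrq fun j => by
    have := congrFun hy' j
    simpa using this

lemma mem_gg (i : Fin 8) : gg i ∈ convexHull ℝ (Set.range gg) := subset_convexHull ℝ _ ⟨i, rfl⟩

/-- vertices on opposite triangles. -/
lemma n_of (u w y z : Fin 8)
    (hm : ∀ j, (1/2:ℝ) * gg u j + (1/2) * gg w j = (1/2) * gg y j + (1/2) * gg z j)
    (hno : ∀ r q : ℝ, 0 ≤ r → 0 ≤ q → r + q = 1 →
      (∀ j, r * gg u j + q * gg w j = gg y j) → False) :
    ¬ GG.Adj u w :=
  nadj_of u w (gg y) (gg z) (1/2) (1/2) (by norm_num) (by norm_num) (by norm_num)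
    (1/2) (1/2) (by norm_num) (by norm_num) (by norm_num) (mem_gg y) (mem_gg z) hm hno

lemma n_of' (u w y z : Fin 8)
    (hm : ∀ j, (2/3:ℝ) * gg u j + (1/3) * gg w j = (2/3) * gg y j + (1/3) * gg z j)
    (hno : ∀ r q : ℝ, 0 ≤ r → 0 ≤ q → r + q = 1 →
      (∀ j, r * gg u j + q * gg w j = gg y j) → False) :
    ¬ GG.Adj u w :=
  nadj_of u w (gg y) (gg z) (2/3) (1/3) (by norm_num) (by norm_num) (by norm_num)
    (2/3) (1/3) (by norm_num) (by norm_num) (by norm_num) (mem_gg y) (mem_gg z) hm hno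

lemma n04 : ¬ GG.Adj 0 4 := n_of 0 4 1 3
  (by intro j; fin_cases j <;> simp [gg])
  (by intro r q hr hq hrq h; have h0 := h 0; have h1 := h 1; have h2 := h 2
      simp [gg] at h0 h1 h2; linarith)
lemma n05 : ¬ GG.Adj 0 5 := n_of 0 5 2 3
  (by intro j; fin_cases j <;> simp [gg])
  (by intro r q hr hq hrq h; have h0 := h 0; have h1 := h 1; have h2 := h 2
      simp [gg] at h0 h1 h2; linarith)
lemma n13 : ¬ GG.Adj 1 3 := n_of 1 3 0 4
  (by intro j; fin_cases j <;> simp [gg])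
  (by intro r q hr hq hrq h; have h0 := h 0; have h1 := h 1; have h2 := h 2
      simp [gg] at h0 h1 h2; linarith)
lemma n15 : ¬ GG.Adj 1 5 := n_of 1 5 2 4
  (by intro j; fin_cases j <;> simp [gg])
  (by intro r q hr hq hrq h; have h0 := h 0; have h1 := h 1; have h2 := h 2
      simp [gg] at h0 h1 h2; linarith)
lemma n23 : ¬ GG.Adj 2 3 := n_of 2 3 0 5
  (by intro j; fin_cases j <;> simp [gg])
  (by intro r q hr hq hrq h; have h0 := h 0; have h1 := h 1; have h2 := h 2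
      simp [gg] at h0 h1 h2; linarith)
lemma n24 : ¬ GG.Adj 2 4 := n_of 2 4 1 5
  (by intro j; fin_cases j <;> simp [gg])
  (by intro r q hr hq hrq h; have h0 := h 0; have h1 := h 1; have h2 := h 2
      simp [gg] at h0 h1 h2; linarith)
lemma n07 : ¬ GG.Adj 0 7 := n_of' 0 7 3 6
  (by intro j; fin_cases j <;> simp [gg] <;> norm_num)
  (by intro r q hr hq hrq h; have h0 := h 0; have h1 := h 1; have h2 := h 2
      simp [gg] at h0 h1 h2; linarith)
lemma n17 : ¬ GG.Adj 1 7 := n_of' 1 7 4 6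
  (by intro j; fin_cases j <;> simp [gg] <;> norm_num)
  (by intro r q hr hq hrq h; have h0 := h 0; have h1 := h 1; have h2 := h 2
      simp [gg] at h0 h1 h2; linarith)
lemma n27 : ¬ GG.Adj 2 7 := n_of' 2 7 5 6
  (by intro j; fin_cases j <;> simp [gg] <;> norm_num)
  (by intro r q hr hq hrq h; have h0 := h 0; have h1 := h 1; have h2 := h 2
      simp [gg] at h0 h1 h2; linarith)
lemma n36 : ¬ GG.Adj 3 6 := n_of' 3 6 0 7
  (by intro j; fin_cases j <;> simp [gg] <;> norm_num)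
  (by intro r q hr hq hrq h; have h0 := h 0; have h1 := h 1; have h2 := h 2
      simp [gg] at h0 h1 h2; linarith)
lemma n46 : ¬ GG.Adj 4 6 := n_of' 4 6 1 7
  (by intro j; fin_cases j <;> simp [gg] <;> norm_num)
  (by intro r q hr hq hrq h; have h0 := h 0; have h1 := h 1; have h2 := h 2
      simp [gg] at h0 h1 h2; linarith)
lemma n56 : ¬ GG.Adj 5 6 := n_of' 5 6 2 7
  (by intro j; fin_cases j <;> simp [gg] <;> norm_num)
  (by intro r q hr hq hrq h; have h0 := h 0; have h1 := h 1; have h2 := h 2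
      simp [gg] at h0 h1 h2; linarith)
lemma n67 : ¬ GG.Adj 6 7 := by
  refine nadj_of 6 7 (gg 0) ((1/2:ℝ) • gg 1 + (1/2:ℝ) • gg 2) (3/4) (1/4) (by norm_num)
    (by norm_num) (by norm_num) (1/3) (2/3) (by norm_num) (by norm_num) (by norm_num) (mem_gg 0)
    (convex_convexHull ℝ _ (mem_gg 1) (mem_gg 2) (by norm_num) (by norm_num) (by norm_num)) ?_ ?_
  · intro j; fin_cases j <;> simp [gg] <;> norm_num
  · intro r q hr hq hrq h; have h0 := h 0; have h1 := h 1; have h2 := h 2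
    simp [gg] at h0 h1 h2

lemma nb0 : ∀ w, GG.Adj 0 w → w = 1 ∨ w = 2 ∨ w = 3 ∨ w = 6 := by
  intro w h
  fin_cases w
  · exact absurd h (GG.loopless.irrefl 0)
  · simp
  · simp
  · simp
  · exact absurd h n04
  · exact absurd h n05
  · simp
  · exact absurd h n07

lemma nb1 : ∀ w, GG.Adj 1 w → w = 0 ∨ w = 2 ∨ w = 4 ∨ w = 6 := by
  intro w h
  fin_cases w
  · simp
  · exact absurd h (GG.loopless.irrefl 1)
  · simp
  · exact absurd h n13
  · simp
  · exact absurd h n15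
  · simp
  · exact absurd h n17

lemma nb2 : ∀ w, GG.Adj 2 w → w = 0 ∨ w = 1 ∨ w = 5 ∨ w = 6 := by
  intro w h
  fin_cases w
  · simp
  · simp
  · exact absurd h (GG.loopless.irrefl 2)
  · exact absurd h n23
  · exact absurd h n24
  · simp
  · simp
  · exact absurd h n27

lemma nb6 : ∀ w, GG.Adj 6 w → w = 0 ∨ w = 1 ∨ w = 2 := by
  intro w h
  fin_cases w
  · simp
  · simp
  · simp
  · exact absurd h.symm n36
  · exact absurd h.symm n46
  · exact absurd h.symm n56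
  · exact absurd h (GG.loopless.irrefl 6)
  · exact absurd h n67

end Pool.Agent.H176R2
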