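import Pool.Agent.H176R2.Shadow3

set_option autoImplicit false

namespace Pool.Agent.H176R2

open Set

/-- the prescribed hexagon. -/
def tt : Fin 6 → Fin 2 → ℝ := ![![0, 1], ![1, 0], ![2, 0], ![3, 1], ![2, 3], ![0, 2]]

lemma tt_inj : Function.Injective tt := by
  intro i j h
  have h0 := congrFun h 0
  have h1 := congrFun h 1
  fin_cases i <;> fin_cases j <;> first | rfl | (exfalso; simp [tt] at h0 h1)

noncomputable def TT : Finset (Fin 2 → ℝ) := Finset.univ.map ⟨tt, tt_inj⟩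

lemma mem_TT (x : Fin 2 → ℝ) : x ∈ TT ↔ ∃ i, tt i = x := by simp [TT]

lemma coe_TT : (TT : Set (Fin 2 → ℝ)) = Set.range tt := by
  ext x; simp [mem_TT]

lemma card_TT : TT.card = 6 := by simp [TT]

/-- vertex functionals of the hexagon. -/
def tf : Fin 6 → Fin 3 → ℝ :=
  ![![-2, -1, -2], ![-1, -2, -2], ![1, -2, 1], ![1, 0, 2], ![1, 3, 6], ![-1, 1, 1]]

lemma tf_lt (i : Fin 6) : tf i 2 < tf i 0 * tt i 0 + tf i 1 * tt i 1 := by
  fin_cases i <;> simp [tf, tt] <;> norm_num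

lemma tf_le (i j : Fin 6) (h : j ≠ i) : tf i 0 * tt j 0 + tf i 1 * tt j 1 ≤ tf i 2 := by
  fin_cases i <;> fin_cases j <;> first | exact absurd rfl h | (simp [tf, tt]; try norm_num)

/-- a general affine function on `ℝ²`. -/
noncomputable def aff2 (a b d : ℝ) : (Fin 2 → ℝ) →ᵃ[ℝ] ℝ :=
  (a • (LinearMap.proj 0 : (Fin 2 → ℝ) →ₗ[ℝ] ℝ) + b • (LinearMap.proj 1 : (Fin 2 → ℝ) →ₗ[ℝ] ℝ)).toAffineMap
    + AffineMap.const ℝ _ d

lemma aff2_apply (a b d : ℝ) (x : Fin 2 → ℝ) : aff2 a b d x = a * x 0 + b * x 1 + d := by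
  simp [aff2]

lemma TT_vertex (i : Fin 6) : IsF TT {tt i} := by
  refine isF_idx tt tt_inj TT _ {i} mem_TT (by simp [eq_comm])
    (aff2 (tf i 0) (tf i 1) (-(tf i 0 * tt i 0 + tf i 1 * tt i 1))) ?_ ?_
  · intro j hj
    rw [Finset.mem_singleton] at hj
    subst hj
    rw [aff2_apply]; ring
  · intro j hj
    rw [Finset.mem_singleton] at hj
    rw [aff2_apply]
    have h1 := tf_lt i
    have h2 := tf_le i j hj
    linarith

lemma tt_extreme (i : Fin 6) : tt i ∈ Set.extremePoints ℝ (convexHull ℝ (TT : Set (Fin 2 → ℝ))) := by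
  have := (TT_vertex i).isExtreme
  rw [Finset.coe_singleton, convexHull_singleton] at this
  exact isExtreme_singleton.1 this

lemma TT_strict : ∀ t ∈ TT, t ∉ convexHull ℝ ((TT : Set (Fin 2 → ℝ)) \ {t}) := by
  intro t ht hmem
  obtain ⟨i, rfl⟩ := (mem_TT t).1 ht
  have hsub : convexHull ℝ ((TT : Set (Fin 2 → ℝ)) \ {tt i}) ⊆
      {x | aff2 (tf i 0) (tf i 1) (-(tf i 2)) x ≤ 0} := by
    apply convexHull_min
    · rintro x ⟨hx, hx'⟩
      obtain ⟨j, rfl⟩ := (mem_TT x).1 hx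
      have hji : j ≠ i := by rintro rfl; exact hx' rfl
      have := tf_le i j hji
      rw [Set.mem_ofPred_eq, aff2_apply]; linarith
    · exact (convex_Iic (0:ℝ)).affine_preimage (aff2 (tf i 0) (tf i 1) (-(tf i 2)))
  have := hsub hmem
  rw [Set.mem_ofPred_eq, aff2_apply] at this
  have h1 := tf_lt i
  linarith

lemma exists_coords2 (φ : (Fin 2 → ℝ) →ₗ[ℝ] ℝ) :
    ∃ a b : ℝ, ∀ x, φ x = a * x 0 + b * x 1 := by
  refine ⟨φ (Pi.single 0 1), φ (Pi.single 1 1), ?_⟩
  intro x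
  have h2 : x = x 0 • Pi.single 0 1 + x 1 • Pi.single 1 1 := by
    ext i; fin_cases i <;> simp
  conv_lhs => rw [h2]
  simp only [map_add, map_smul, smul_eq_mul]
  ring

/-- a supporting line at a boundary point. -/
lemma support_of_frontier {s : Set (Fin 2 → ℝ)} (hs : Convex ℝ s) (hint : (interior s).Nonempty)
    {x : Fin 2 → ℝ} (hx : x ∈ frontier s) :
    ∃ a b : ℝ, (∀ y ∈ s, a * y 0 + b * y 1 ≤ a * x 0 + b * x 1) ∧
      ∃ y ∈ s, a * y 0 + b * y 1 < a * x 0 + b * x 1 := by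
  obtain ⟨φ, hφ⟩ := geometric_hahn_banach_open_point hs.interior isOpen_interior hx.2
  obtain ⟨a, b, h⟩ := exists_coords2 φ.toLinearMap
  have h' : ∀ y, φ y = a * y 0 + b * y 1 := h
  refine ⟨a, b, ?_, ?_⟩
  · intro y hy
    rw [← h', ← h']
    have hcl : y ∈ closure (interior s) := by
      rw [hs.closure_interior_eq_closure_of_nonempty_interior hint]
      exact subset_closure hy
    have hsub : closure (interior s) ⊆ {z | φ z ≤ φ x} := by
      apply closure_minimal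
      · exact fun z hz => (hφ z hz).le
      · exact isClosed_le φ.continuous continuous_const
    exact hsub hcl
  · obtain ⟨y, hy⟩ := hint
    refine ⟨y, interior_subset hy, ?_⟩
    rw [← h', ← h']
    exact hφ y hy

lemma not_interior_of_max {s : Set (Fin 2 → ℝ)} {x : Fin 2 → ℝ} {a b : ℝ}
    (hab : 0 < a ^ 2 + b ^ 2) (h : ∀ y ∈ s, a * y 0 + b * y 1 ≤ a * x 0 + b * x 1) :
    x ∉ interior s := by
  intro hx
  have hcont : Filter.Tendsto (fun ε : ℝ => x + ε • ![a, b]) (nhds 0) (nhds x) := by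
    have : Continuous (fun ε : ℝ => x + ε • ![a, b]) := by fun_prop
    simpa using this.tendsto 0
  have hev := (hcont.eventually (mem_interior_iff_mem_nhds.1 hx)).filter_mono
    (nhdsWithin_le_nhds (s := Set.Ioi 0))
  obtain ⟨ε, hε, hε0⟩ := (hev.and self_mem_nhdsWithin).exists
  have h1 := h _ hε
  have h2 : (0:ℝ) < ε := hε0
  simp at h1
  nlinarith

lemma tt_frontier (i : Fin 6) : tt i ∈ frontier (convexHull ℝ (TT : Set (Fin 2 → ℝ))) := by
  rw [frontier, Set.mem_sdiff]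
  have hmem : tt i ∈ convexHull ℝ (TT : Set (Fin 2 → ℝ)) := extremePoints_subset (tt_extreme i)
  refine ⟨subset_closure hmem, ?_⟩
  apply not_interior_of_max (a := tf i 0) (b := tf i 1)
  · fin_cases i <;> simp [tf] <;> norm_num
  · intro y hy
    have hsub : convexHull ℝ (TT : Set (Fin 2 → ℝ)) ⊆
        {x | aff2 (tf i 0) (tf i 1) (-(tf i 0 * tt i 0 + tf i 1 * tt i 1)) x ≤ 0} := by
      apply convexHull_min
      · intro x hx
        obtain ⟨j, rfl⟩ := (mem_TT x).1 hx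
        rw [Set.mem_ofPred_eq, aff2_apply]
        by_cases hji : j = i
        · subst hji; linarith
        · have h1 := tf_le i j hji
          have h2 := tf_lt i
          linarith
      · exact (convex_Iic (0:ℝ)).affine_preimage
          (aff2 (tf i 0) (tf i 1) (-(tf i 0 * tt i 0 + tf i 1 * tt i 1)))
    have := hsub hy
    rw [Set.mem_ofPred_eq, aff2_apply] at this
    linarith

lemma frontier_adj (hint : (interior (convexHull ℝ (TT : Set (Fin 2 → ℝ)))).Nonempty)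
    (i j : Fin 6) (hij : i ≠ j)
    (hm : (1/2 : ℝ) • tt i + (1/2 : ℝ) • tt j ∈ frontier (convexHull ℝ (TT : Set (Fin 2 → ℝ)))) :
    j = i + 1 ∨ i = j + 1 := by
  obtain ⟨a, b, h1, y, hy, h2⟩ := support_of_frontier (convex_convexHull ℝ _) hint hm
  have hk : ∀ k, a * tt k 0 + b * tt k 1 ≤
      a * ((1/2) * tt i 0 + (1/2) * tt j 0) + b * ((1/2) * tt i 1 + (1/2) * tt j 1) := by
    intro k
    have := h1 (tt k) (extremePoints_subset (tt_extreme k))
    simpa using this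
  have h3 : ¬ (a = 0 ∧ b = 0) := by
    rintro ⟨rfl, rfl⟩
    simp at h2
  have k0 := hk 0
  have k1 := hk 1
  have k2 := hk 2
  have k3 := hk 3
  have k4 := hk 4
  have k5 := hk 5
  clear h1 h2 hk hm
  by_contra hcon
  apply h3
  fin_cases i <;> fin_cases j <;>
    first
    | exact absurd rfl hij
    | exact absurd (by decide) hcon
    | (simp [tt] at k0 k1 k2 k3 k4 k5
       constructor <;> linarith)

lemma solve_z {a b c d : ℝ} (hc : c ≠ 0) {x : Fin 3 → ℝ}
    (h : a * x 0 + b * x 1 + c * x 2 + d = 0) :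
    x 2 = (-a / c) * x 0 + (-b / c) * x 1 + (-d / c) := by
  field_simp
  linarith

lemma nondeg (k : Fin 6) (P : Fin 6 → Fin 3 → ℝ)
    (hP : ∀ i, P i 0 = tt (k + i) 0 ∧ P i 1 = tt (k + i) 1) {a b c d : ℝ} (i j l : Fin 6)
    (hij : i < j) (hjl : j < l)
    (h1 : a * P i 0 + b * P i 1 + c * P i 2 + d = 0)
    (h2 : a * P j 0 + b * P j 1 + c * P j 2 + d = 0)
    (h3 : a * P l 0 + b * P l 1 + c * P l 2 + d = 0)
    (hne : ∃ x : Fin 3 → ℝ, a * x 0 + b * x 1 + c * x 2 + d ≠ 0) : c ≠ 0 := by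
  rintro rfl
  obtain ⟨x, hx⟩ := hne
  rw [(hP i).1, (hP i).2] at h1
  rw [(hP j).1, (hP j).2] at h2
  rw [(hP l).1, (hP l).2] at h3
  have key : a = 0 ∧ b = 0 ∧ d = 0 := by
    clear hP hx
    fin_cases k <;> fin_cases i <;> fin_cases j <;> fin_cases l <;>
      first
      | exact absurd hij (by decide)
      | exact absurd hjl (by decide)
      | (simp [tt] at h1 h2 h3
         refine ⟨?_, ?_, ?_⟩ <;> linarith)
  obtain ⟨rfl, rfl, rfl⟩ := key
  apply hx; ring

end Pool.Agent.H176R2
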