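import Pool.Agent.H176R2.Shadow4

set_option autoImplicit false

namespace Pool.Agent.H176R2

open Set

section
variable {E : Type*} [NormedAddCommGroup E] [NormedSpace ℝ E]

open Classical in
/-- `a b` is an edge. -/
def IsE (V : Finset E) (a b : E) : Prop := IsF V {a, b}

lemma isE_self {V : Finset E} {a : E} (h : IsE V a a) : IsF V {a} := by
  unfold IsE at h; simpa using h

variable [FiniteDimensional ℝ E]

lemma seg_iffE {n : ℕ} (f : Fin n → E)
    (hext : ∀ v, f v ∈ Set.extremePoints ℝ (convexHull ℝ (Set.range f)))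
    (V : Finset E) (hV : ∀ x, x ∈ V ↔ ∃ i, f i = x) (u w : Fin n) :
    IsExtreme ℝ (convexHull ℝ (Set.range f)) (segment ℝ (f u) (f w)) ↔
      IsE V (f u) (f w) := seg_iff f hext V hV u w

theorem quadE {V : Finset E} (hV : ∀ v ∈ V, IsF V {v}) (hd : dm V = 3)
    {ai aj ak bi bj p : E} (hai : ai ∈ V) (haj : aj ∈ V) (hak : ak ∈ V) (hbi : bi ∈ V)
    (nij : ai ≠ aj) (nik : ai ≠ ak) (nib : ai ≠ bi) (nkb : ak ≠ bi)
    (njb : aj ≠ bi) (npi : p ≠ ai) (npj : p ≠ aj) (npb : p ≠ bi)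
    (hN1 : ∀ w ∈ V, w ≠ ai → IsE V ai w → w = aj ∨ w = ak ∨ w = bi ∨ w = p)
    (hN2 : ∀ w ∈ V, w ≠ aj → IsE V aj w → w = ai ∨ w = ak ∨ w = bj ∨ w = p)
    (hN3 : ∀ w ∈ V, w ≠ p → IsE V p w → w = ai ∨ w = aj ∨ w = ak)
    (h1 : IsE V ai bi) (h2 : IsE V ai aj) (h3 : IsE V ai p) :
    ∃ φ : E →ᵃ[ℝ] ℝ, φ ai = 0 ∧ φ aj = 0 ∧ φ bi = 0 ∧ φ bj = 0 ∧ φ ak < 0 :=
  quad hV hd hai haj hak hbi nij nik nib nkb njb npi npj npb hN1 hN2 hN3 h1 h2 h3

end

lemma final_num (k : Fin 6) (P : Fin 6 → Fin 3 → ℝ)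
    (hP : ∀ i, P i 0 = tt (k + i) 0 ∧ P i 1 = tt (k + i) 1)
    {a b d a' b' d' a'' b'' d'' : ℝ}
    (p0 : P 0 2 = a * P 0 0 + b * P 0 1 + d) (p1 : P 1 2 = a * P 1 0 + b * P 1 1 + d)
    (p4 : P 4 2 = a * P 4 0 + b * P 4 1 + d) (p5 : P 5 2 = a * P 5 0 + b * P 5 1 + d)
    (q1 : P 1 2 = a' * P 1 0 + b' * P 1 1 + d') (q2 : P 2 2 = a' * P 2 0 + b' * P 2 1 + d')
    (q3 : P 3 2 = a' * P 3 0 + b' * P 3 1 + d') (q4 : P 4 2 = a' * P 4 0 + b' * P 4 1 + d')
    (r0 : P 0 2 = a'' * P 0 0 + b'' * P 0 1 + d'') (r2 : P 2 2 = a'' * P 2 0 + b'' * P 2 1 + d'')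
    (r3 : P 3 2 = a'' * P 3 0 + b'' * P 3 1 + d'')
    (r5 : P 5 2 = a'' * P 5 0 + b'' * P 5 1 + d'') :
    P 2 2 = a * P 2 0 + b * P 2 1 + d ∧ P 3 2 = a * P 3 0 + b * P 3 1 + d := by
  have h0 := hP 0
  have h1 := hP 1
  have h2 := hP 2
  have h3 := hP 3
  have h4 := hP 4
  have h5 := hP 5
  obtain ⟨u0, v0⟩ := h0
  obtain ⟨u1, v1⟩ := h1
  obtain ⟨u2, v2⟩ := h2
  obtain ⟨u3, v3⟩ := h3
  obtain ⟨u4, v4⟩ := h4
  obtain ⟨u5, v5⟩ := h5
  clear hP
  rw [u0, v0] at p0 r0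
  rw [u1, v1] at p1 q1
  rw [u2, v2] at q2 r2 ⊢
  rw [u3, v3] at q3 r3 ⊢
  rw [u4, v4] at p4 q4
  rw [u5, v5] at p5 r5
  clear u0 v0 u1 v1 u2 v2 u3 v3 u4 v4 u5 v5
  fin_cases k <;> simp [tt] at p0 p1 p4 p5 q1 q2 q3 q4 r0 r2 r3 r5 ⊢ <;>
    constructor <;> linarith

/-- the projection statement: the three quadrilateral planes cannot exist over the hexagon. -/
theorem final (k : Fin 6) (P : Fin 6 → Fin 3 → ℝ)
    (hP : ∀ i, P i 0 = tt (k + i) 0 ∧ P i 1 = tt (k + i) 1)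
    (φ φ' φ'' : (Fin 3 → ℝ) →ᵃ[ℝ] ℝ) (hφ : ∃ x, φ x ≠ 0) (hφ' : ∃ x, φ' x ≠ 0)
    (hφ'' : ∃ x, φ'' x ≠ 0)
    (p0 : φ (P 0) = 0) (p1 : φ (P 1) = 0) (p4 : φ (P 4) = 0) (p5 : φ (P 5) = 0)
    (q1 : φ' (P 1) = 0) (q2 : φ' (P 2) = 0) (q3 : φ' (P 3) = 0) (q4 : φ' (P 4) = 0)
    (r0 : φ'' (P 0) = 0) (r2 : φ'' (P 2) = 0) (r3 : φ'' (P 3) = 0) (r5 : φ'' (P 5) = 0) :
    φ (P 2) = 0 ∧ φ (P 3) = 0 := by
  obtain ⟨a, b, c, d, h⟩ := exists_coords φ
  obtain ⟨a', b', c', d', h'⟩ := exists_coords φ'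
  obtain ⟨a'', b'', c'', d'', h''⟩ := exists_coords φ''
  rw [h] at p0 p1 p4 p5
  rw [h'] at q1 q2 q3 q4
  rw [h''] at r0 r2 r3 r5
  have hc : c ≠ 0 := nondeg k P hP 0 1 4 (by decide) (by decide) p0 p1 p4
    (by obtain ⟨x, hx⟩ := hφ; exact ⟨x, by rw [← h]; exact hx⟩)
  have hc' : c' ≠ 0 := nondeg k P hP 1 2 3 (by decide) (by decide) q1 q2 q3
    (by obtain ⟨x, hx⟩ := hφ'; exact ⟨x, by rw [← h']; exact hx⟩)
  have hc'' : c'' ≠ 0 := nondeg k P hP 0 2 3 (by decide) (by decide) r0 r2 r3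
    (by obtain ⟨x, hx⟩ := hφ''; exact ⟨x, by rw [← h'']; exact hx⟩)
  have := final_num k P hP (solve_z hc p0) (solve_z hc p1) (solve_z hc p4) (solve_z hc p5)
    (solve_z hc' q1) (solve_z hc' q2) (solve_z hc' q3) (solve_z hc' q4)
    (solve_z hc'' r0) (solve_z hc'' r2) (solve_z hc'' r3) (solve_z hc'' r5)
  rw [h, h]
  obtain ⟨e1, e2⟩ := this
  constructor
  · rw [e1]; field_simp; ring
  · rw [e2]; field_simp; ring

/-- the hexagonal circuit. -/
def cyc : GG.Walk 0 0 :=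
  .cons a01 (.cons a12 (.cons a25 (.cons a45.symm (.cons a34.symm (.cons a03.symm .nil)))))

lemma cyc_isCycle : cyc.IsCycle := by
  rw [SimpleGraph.Walk.isCycle_def]
  refine ⟨?_, ?_, ?_⟩
  · rw [SimpleGraph.Walk.isTrail_def]
    simp [cyc]
  · simp [cyc]
  · simp [cyc]

lemma cyc_length : cyc.length = 6 := by simp [cyc]

def cy : Fin 6 → Fin 8 := ![0, 1, 2, 5, 4, 3]

lemma cyc_union (f : Fin 8 → Fin 3 → ℝ) :
    (⋃ d ∈ cyc.darts, segment ℝ (f d.fst) (f d.snd)) =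
      ⋃ i : Fin 6, segment ℝ (f (cy i)) (f (cy (i + 1))) := by
  ext x
  simp only [cyc, SimpleGraph.Walk.darts_cons, SimpleGraph.Walk.darts_nil, List.mem_cons,
    List.not_mem_nil, or_false, Set.mem_iUnion, exists_prop]
  constructor
  · rintro ⟨d, (rfl | rfl | rfl | rfl | rfl | rfl), hx⟩
    · exact ⟨0, hx⟩
    · exact ⟨1, hx⟩
    · exact ⟨2, hx⟩
    · exact ⟨3, hx⟩
    · exact ⟨4, hx⟩
    · exact ⟨5, hx⟩
  · rintro ⟨i, hx⟩
    fin_cases i
    · exact ⟨_, Or.inl rfl, hx⟩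
    · exact ⟨_, Or.inr (Or.inl rfl), hx⟩
    · exact ⟨_, Or.inr (Or.inr (Or.inl rfl)), hx⟩
    · exact ⟨_, Or.inr (Or.inr (Or.inr (Or.inl rfl))), hx⟩
    · exact ⟨_, Or.inr (Or.inr (Or.inr (Or.inr (Or.inl rfl)))), hx⟩
    · exact ⟨_, Or.inr (Or.inr (Or.inr (Or.inr (Or.inr rfl)))), hx⟩

lemma step6 : ∀ a b c : Fin 6, (b = a + 1 ∨ a = b + 1) → (c = b + 1 ∨ b = c + 1) → a ≠ c →
    (b = a + 1 ∧ c = b + 1) ∨ (a = b + 1 ∧ b = c + 1) := by decide

lemma noboth : ∀ a b : Fin 6, ¬ (b = a + 1 ∧ a = b + 1) := by decide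

lemma up_down (t : Fin 6 → Fin 6) (hinj : Function.Injective t)
    (h : ∀ i, t (i + 1) = t i + 1 ∨ t i = t (i + 1) + 1) :
    (∀ i, t i = t 0 + i) ∨ (∀ i, t (5 - i) = t 5 + i) := by
  have h01 := step6 (t 0) (t 1) (t 2) (h 0) (h 1) (hinj.ne (by decide))
  have h12 := step6 (t 1) (t 2) (t 3) (h 1) (h 2) (hinj.ne (by decide))
  have h23 := step6 (t 2) (t 3) (t 4) (h 2) (h 3) (hinj.ne (by decide))
  have h34 := step6 (t 3) (t 4) (t 5) (h 3) (h 4) (hinj.ne (by decide))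
  rcases h01 with ⟨e1, e2⟩ | ⟨e1, e2⟩
  · left
    have e3 : t 3 = t 2 + 1 := by
      rcases h12 with ⟨_, h⟩ | ⟨h, _⟩
      · exact h
      · exact absurd ⟨e2, h⟩ (noboth _ _)
    have e4 : t 4 = t 3 + 1 := by
      rcases h23 with ⟨_, h⟩ | ⟨h, _⟩
      · exact h
      · exact absurd ⟨e3, h⟩ (noboth _ _)
    have e5 : t 5 = t 4 + 1 := by
      rcases h34 with ⟨_, h⟩ | ⟨h, _⟩
      · exact h
      · exact absurd ⟨e4, h⟩ (noboth _ _)
    have k2 : t 2 = t 0 + 2 := by rw [e2, e1, add_assoc]; rfl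
    have k3 : t 3 = t 0 + 3 := by rw [e3, k2, add_assoc]; rfl
    have k4 : t 4 = t 0 + 4 := by rw [e4, k3, add_assoc]; rfl
    have k5 : t 5 = t 0 + 5 := by rw [e5, k4, add_assoc]; rfl
    intro i
    fin_cases i
    · simp
    · exact e1
    · exact k2
    · exact k3
    · exact k4
    · exact k5
  · right
    have e3 : t 2 = t 3 + 1 := by
      rcases h12 with ⟨h, _⟩ | ⟨_, h⟩
      · exact absurd ⟨h, e2⟩ (noboth _ _)
      · exact h
    have e4 : t 3 = t 4 + 1 := by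
      rcases h23 with ⟨h, _⟩ | ⟨_, h⟩
      · exact absurd ⟨h, e3⟩ (noboth _ _)
      · exact h
    have e5 : t 4 = t 5 + 1 := by
      rcases h34 with ⟨h, _⟩ | ⟨_, h⟩
      · exact absurd ⟨h, e4⟩ (noboth _ _)
      · exact h
    have k3 : t 3 = t 5 + 2 := by rw [e4, e5, add_assoc]; rfl
    have k2 : t 2 = t 5 + 3 := by rw [e3, k3, add_assoc]; rfl
    have k1 : t 1 = t 5 + 4 := by rw [e2, k2, add_assoc]; rfl
    have k0 : t 0 = t 5 + 5 := by rw [e1, k1, add_assoc]; rfl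
    intro i
    fin_cases i
    · simp
    · exact e5
    · exact k3
    · exact k2
    · exact k1
    · exact k0

/-- vertical projection. -/
def pr (p : Fin 3 → ℝ) : Fin 2 → ℝ := ![p 0, p 1]

lemma pr_comb (a b : ℝ) (x y : Fin 3 → ℝ) : pr (a • x + b • y) = a • pr x + b • pr y := by
  ext i; fin_cases i <;> simp [pr]

/-- the linear version of the projection. -/
noncomputable def prL : (Fin 3 → ℝ) →L[ℝ] (Fin 2 → ℝ) :=
  ContinuousLinearMap.pi ![ContinuousLinearMap.proj 0, ContinuousLinearMap.proj 1]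

lemma prL_apply (x : Fin 3 → ℝ) : prL x = pr x := by
  ext i; fin_cases i <;> simp [prL, pr]

lemma prL_surj : Function.Surjective prL := by
  intro y
  refine ⟨![y 0, y 1, 0], ?_⟩
  rw [prL_apply]
  ext i; fin_cases i <;> simp [pr]

theorem core (f : Fin 8 → Fin 3 → ℝ) (hinj : Function.Injective f)
    (hint : (interior (convexHull ℝ (Set.range f))).Nonempty)
    (hext : ∀ w, f w ∈ Set.extremePoints ℝ (convexHull ℝ (Set.range f)))
    (hadj : ∀ u w, GG.Adj u w ↔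
      (u ≠ w ∧ IsExtreme ℝ (convexHull ℝ (Set.range f)) (segment ℝ (f u) (f w))))
    (himg : pr '' convexHull ℝ (Set.range f) = convexHull ℝ (TT : Set (Fin 2 → ℝ)))
    (hpre : (pr ⁻¹' frontier (convexHull ℝ (TT : Set (Fin 2 → ℝ)))) ∩ convexHull ℝ (Set.range f)
      = ⋃ i : Fin 6, segment ℝ (f (cy i)) (f (cy (i + 1)))) : False := by
  -- interior of the hexagon
  have hTint : (interior (convexHull ℝ (TT : Set (Fin 2 → ℝ)))).Nonempty := by
    obtain ⟨x, hx⟩ := hint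
    refine ⟨pr x, ?_⟩
    rw [mem_interior]
    refine ⟨pr '' interior (convexHull ℝ (Set.range f)), ?_, ?_, ⟨x, hx, rfl⟩⟩
    · rw [← himg]; exact Set.image_mono interior_subset
    · have h1 : pr '' interior (convexHull ℝ (Set.range f)) =
          prL '' interior (convexHull ℝ (Set.range f)) := by
        apply Set.image_congr
        intro y _; rw [prL_apply]
      rw [h1]
      exact prL.isOpenMap prL_surj _ isOpen_interior
  have hmem : ∀ i, f i ∈ convexHull ℝ (Set.range f) := fun i => extremePoints_subset (hext i)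
  have hprmem : ∀ x ∈ convexHull ℝ (Set.range f), pr x ∈ convexHull ℝ (TT : Set (Fin 2 → ℝ)) := by
    intro x hx; rw [← himg]; exact ⟨x, hx, rfl⟩
  -- every vertex of the hexagon is the projection of a vertex of the circuit
  have hclaim1 : ∀ k : Fin 6, ∃ i : Fin 6, pr (f (cy i)) = tt k := by
    intro k
    have h1 : tt k ∈ convexHull ℝ (TT : Set (Fin 2 → ℝ)) := extremePoints_subset (tt_extreme k)
    rw [← himg] at h1
    obtain ⟨x, hx, hxk⟩ := h1
    have h2 : x ∈ ⋃ i : Fin 6, segment ℝ (f (cy i)) (f (cy (i + 1))) := by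
      rw [← hpre]
      exact ⟨by rw [Set.mem_preimage, hxk]; exact tt_frontier k, hx⟩
    rw [Set.mem_iUnion] at h2
    obtain ⟨i, r, s, hr, hs, hrs, hxs⟩ := h2
    rcases hr.lt_or_eq with hr' | hr'
    · rcases hs.lt_or_eq with hs' | hs'
      · refine ⟨i, ?_⟩
        have h3 := (mem_extremePoints.1 (tt_extreme k)).2 (pr (f (cy i))) (hprmem _ (hmem _))
          (pr (f (cy (i + 1)))) (hprmem _ (hmem _))
          ⟨r, s, hr', hs', hrs, by rw [← pr_comb, hxs, hxk]⟩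
        exact h3.1
      · refine ⟨i, ?_⟩
        rw [← hs'] at hxs hrs
        have : r = 1 := by linarith
        rw [this] at hxs
        simp at hxs
        rw [hxs, hxk]
    · refine ⟨i + 1, ?_⟩
      rw [← hr'] at hxs hrs
      have : s = 1 := by linarith
      rw [this] at hxs
      simp at hxs
      rw [hxs, hxk]
  choose σ hσ using hclaim1
  have hσinj : Function.Injective σ := by
    intro k l hkl
    apply tt_inj
    rw [← hσ k, ← hσ l, hkl]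
  have hσsurj : Function.Surjective σ := Finite.injective_iff_surjective.1 hσinj
  choose τ hτ using hσsurj
  have hτinj : Function.Injective τ := by
    intro i j hij
    rw [← hτ i, ← hτ j, hij]
  have hpos : ∀ i, pr (f (cy i)) = tt (τ i) := by
    intro i
    rw [← hσ (τ i), hτ i]
  have hτadj : ∀ i, τ (i + 1) = τ i + 1 ∨ τ i = τ (i + 1) + 1 := by
    intro i
    apply frontier_adj hTint (τ i) (τ (i + 1)) (hτinj.ne (by
      intro h
      have : ∀ i : Fin 6, i ≠ i + 1 := by decide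
      exact this i h))
    rw [← hpos, ← hpos, ← pr_comb]
    have h1 : (1/2 : ℝ) • f (cy i) + (1/2 : ℝ) • f (cy (i + 1)) ∈
        ⋃ i : Fin 6, segment ℝ (f (cy i)) (f (cy (i + 1))) := by
      rw [Set.mem_iUnion]
      exact ⟨i, 1/2, 1/2, by norm_num, by norm_num, by norm_num, rfl⟩
    rw [← hpre] at h1
    exact h1.1
  -- the combinatorial part
  obtain ⟨V, hVdef⟩ : ∃ V : Finset (Fin 3 → ℝ), V = Finset.univ.map ⟨f, hinj⟩ := ⟨_, rfl⟩
  have hVm : ∀ x, x ∈ V ↔ ∃ i, f i = x := by intro x; simp [hVdef]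
  have hVr : (V : Set (Fin 3 → ℝ)) = Set.range f := by ext x; simp [hVm]
  have hV : ∀ v ∈ V, IsF V {v} := by
    intro v hv
    obtain ⟨i, rfl⟩ := (hVm v).1 hv
    have h1 := seg_iffE f hext V hVm i i
    rw [segment_same] at h1
    exact isE_self (h1.1 (isExtreme_singleton.2 (hext i)))
  have hVd : dm V = 3 := by
    have h1 := (convex_convexHull ℝ (Set.range f)).interior_nonempty_iff_affineSpan_eq_top.1 hint
    rw [affineSpan_convexHull] at h1
    unfold dm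
    rw [hVr, ← direction_affineSpan, h1, AffineSubspace.direction_top, finrank_top]
    simp
  have hE : ∀ u w, GG.Adj u w → IsE V (f u) (f w) := by
    intro u w h
    exact (seg_iffE f hext V hVm u w).1 ((hadj u w).1 h).2
  have hE' : ∀ u w, u ≠ w → IsE V (f u) (f w) → GG.Adj u w := by
    intro u w huw h
    exact (hadj u w).2 ⟨huw, (seg_iffE f hext V hVm u w).2 h⟩
  have hfV : ∀ i, f i ∈ V := fun i => (hVm _).2 ⟨i, rfl⟩
  have hne : ∀ i j, i ≠ j → f i ≠ f j := fun i j h => hinj.ne h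
  have hN : ∀ (u : Fin 8) (w : Fin 3 → ℝ), w ∈ V → w ≠ f u → IsE V (f u) w →
      ∃ j, f j = w ∧ GG.Adj u j := by
    intro u w hw hwu h
    obtain ⟨j, rfl⟩ := (hVm w).1 hw
    exact ⟨j, rfl, hE' u j (fun h' => hwu (by rw [h'])) h⟩
  obtain ⟨φ, p0, p1, p3, p4, p2⟩ := quadE hV hVd (ai := f 0) (aj := f 1) (ak := f 2) (bi := f 3)
    (bj := f 4) (p := f 6) (hfV _) (hfV _) (hfV _) (hfV _)
    (hne _ _ (by decide)) (hne _ _ (by decide)) (hne _ _ (by decide)) (hne _ _ (by decide))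
    (hne _ _ (by decide)) (hne _ _ (by decide)) (hne _ _ (by decide)) (hne _ _ (by decide))
    (by
      intro w hw h1 h2
      obtain ⟨j, rfl, hj⟩ := hN _ w hw h1 h2
      rcases nb0 j hj with rfl | rfl | rfl | rfl <;> simp)
    (by
      intro w hw h1 h2
      obtain ⟨j, rfl, hj⟩ := hN _ w hw h1 h2
      rcases nb1 j hj with rfl | rfl | rfl | rfl <;> simp)
    (by
      intro w hw h1 h2
      obtain ⟨j, rfl, hj⟩ := hN _ w hw h1 h2
      rcases nb6 j hj with rfl | rfl | rfl <;> simp)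
    (hE _ _ a03) (hE _ _ a01) (hE _ _ a06)
  obtain ⟨φ', q1, q2, q4, q5, q0⟩ := quadE hV hVd (ai := f 1) (aj := f 2) (ak := f 0) (bi := f 4)
    (bj := f 5) (p := f 6) (hfV _) (hfV _) (hfV _) (hfV _)
    (hne _ _ (by decide)) (hne _ _ (by decide)) (hne _ _ (by decide)) (hne _ _ (by decide))
    (hne _ _ (by decide)) (hne _ _ (by decide)) (hne _ _ (by decide)) (hne _ _ (by decide))
    (by
      intro w hw h1 h2
      obtain ⟨j, rfl, hj⟩ := hN _ w hw h1 h2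
      rcases nb1 j hj with rfl | rfl | rfl | rfl <;> simp)
    (by
      intro w hw h1 h2
      obtain ⟨j, rfl, hj⟩ := hN _ w hw h1 h2
      rcases nb2 j hj with rfl | rfl | rfl | rfl <;> simp)
    (by
      intro w hw h1 h2
      obtain ⟨j, rfl, hj⟩ := hN _ w hw h1 h2
      rcases nb6 j hj with rfl | rfl | rfl <;> simp)
    (hE _ _ a14) (hE _ _ a12) (hE _ _ a16)
  obtain ⟨φ'', r0, r2, r3, r5, r1⟩ := quadE hV hVd (ai := f 0) (aj := f 2) (ak := f 1) (bi := f 3)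
    (bj := f 5) (p := f 6) (hfV _) (hfV _) (hfV _) (hfV _)
    (hne _ _ (by decide)) (hne _ _ (by decide)) (hne _ _ (by decide)) (hne _ _ (by decide))
    (hne _ _ (by decide)) (hne _ _ (by decide)) (hne _ _ (by decide)) (hne _ _ (by decide))
    (by
      intro w hw h1 h2
      obtain ⟨j, rfl, hj⟩ := hN _ w hw h1 h2
      rcases nb0 j hj with rfl | rfl | rfl | rfl <;> simp)
    (by
      intro w hw h1 h2
      obtain ⟨j, rfl, hj⟩ := hN _ w hw h1 h2
      rcases nb2 j hj with rfl | rfl | rfl | rfl <;> simp)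
    (by
      intro w hw h1 h2
      obtain ⟨j, rfl, hj⟩ := hN _ w hw h1 h2
      rcases nb6 j hj with rfl | rfl | rfl <;> simp)
    (hE _ _ a03) (hE _ _ a02) (hE _ _ a06)
  have hcoord : ∀ i, f (cy i) 0 = tt (τ i) 0 ∧ f (cy i) 1 = tt (τ i) 1 := by
    intro i
    rw [← hpos i]
    simp [pr]
  rcases up_down τ hτinj hτadj with hu | hd
  · have := final (τ 0) (fun i => f (cy i)) (fun i => by rw [← hu i]; exact hcoord i)
      φ φ' φ'' ⟨_, p2.ne⟩ ⟨_, q0.ne⟩ ⟨_, r1.ne⟩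
      p0 p1 p4 p3 q1 q2 q5 q4 r0 r2 r5 r3
    exact p2.ne this.1
  · have := final (τ 5) (fun i => f (cy (5 - i))) (fun i => by rw [← hd i]; exact hcoord (5 - i))
      φ φ' φ'' ⟨_, p2.ne⟩ ⟨_, q0.ne⟩ ⟨_, r1.ne⟩
      p3 p4 p1 p0 q4 q5 q2 q1 r3 r5 r2 r0
    exact p2.ne this.2

theorem shadow :
    ¬ (∀ (V : Type) [Fintype V] [DecidableEq V] (G : SimpleGraph V),
      (∃ g : V → (Fin 3 → ℝ), Function.Injective g ∧
        (interior (convexHull ℝ (Set.range g))).Nonempty ∧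
        (∀ v, g v ∈ Set.extremePoints ℝ (convexHull ℝ (Set.range g))) ∧
        (∀ u v, G.Adj u v ↔
          (u ≠ v ∧ IsExtreme ℝ (convexHull ℝ (Set.range g)) (segment ℝ (g u) (g v))))) →
      ∀ (v : V) (c : G.Walk v v), c.IsCycle →
      ∀ (T : Finset (Fin 2 → ℝ)), T.card = c.length →
        (∀ t ∈ T, t ∉ convexHull ℝ ((T : Set (Fin 2 → ℝ)) \ {t})) →
        ∃ f : V → (Fin 3 → ℝ), Function.Injective f ∧
          (interior (convexHull ℝ (Set.range f))).Nonempty ∧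
          (∀ w, f w ∈ Set.extremePoints ℝ (convexHull ℝ (Set.range f))) ∧
          (∀ u w, G.Adj u w ↔
            (u ≠ w ∧ IsExtreme ℝ (convexHull ℝ (Set.range f)) (segment ℝ (f u) (f w)))) ∧
          (fun p : Fin 3 → ℝ => ![p 0, p 1]) '' convexHull ℝ (Set.range f)
            = convexHull ℝ (T : Set (Fin 2 → ℝ)) ∧
          ((fun p : Fin 3 → ℝ => ![p 0, p 1]) ⁻¹' frontier (convexHull ℝ (T : Set (Fin 2 → ℝ))))
              ∩ convexHull ℝ (Set.range f)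
            = ⋃ d ∈ c.darts, segment ℝ (f d.fst) (f d.snd)) := by
  intro H
  obtain ⟨f, hinj, hint, hext, hadj, himg, hpre⟩ := H (Fin 8) GG
    ⟨gg, gg_inj, gg_interior, gg_extreme, GG_adj⟩ 0 cyc cyc_isCycle TT
    (by rw [card_TT, cyc_length]) TT_strict
  rw [cyc_union] at hpre
  exact core f hinj hint hext hadj himg hpre

end Pool.Agent.H176R2
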